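import Pool.Agent.Helper255.BN.Defs

set_option autoImplicit false

open Finset


namespace Pool.Agent.Helper255.BN

namespace AcuteX


/-- all pairs acute -/
theorem acute_case {ι : Type*} [Fintype ι] [DecidableEq ι] (θ r : ι → ℝ) (c : ℝ) (e : ι → ι → ℝ)
    (hMS : ∀ f : ι → ℝ, (∀ i, 0 ≤ f i) → 0 ≤ NN c e (fun i j => f i * f j))
    (hr : ∀ i, 0 < r i) (h : ∀ i j, θ i - θ j ≤ Real.pi / 2) : 0 ≤ FF θ r c e := by
  rcases isEmpty_or_nonempty ι with hι | hι
  · simp [FF]
  · obtain ⟨i0, -, hi0⟩ := Finset.exists_min_image Finset.univ θ Finset.univ_nonempty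
    set t := θ i0 with ht
    have hP : ∀ i, 0 ≤ pp θ r t i := by
      intro i
      refine mul_nonneg (hr i).le (Real.cos_nonneg_of_mem_Icc ⟨?_, h i i0⟩)
      have := hi0 i (Finset.mem_univ i)
      have := Real.pi_pos
      linarith
    have hQ : ∀ i, 0 ≤ qq θ r t i := by
      intro i
      refine mul_nonneg (hr i).le (Real.sin_nonneg_of_nonneg_of_le_pi ?_ ?_)
      · have := hi0 i (Finset.mem_univ i)
        linarith
      · have := h i i0
        have := Real.pi_pos
        linarith
    have hcos : ∀ i j, r i * r j * Real.cos (θ i - θ j) =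
        pp θ r t i * pp θ r t j + qq θ r t i * qq θ r t j := by
      intro i j
      have h1 : θ i - θ j = (θ i - t) - (θ j - t) := by ring
      rw [h1, Real.cos_sub]
      unfold pp qq
      ring
    have hcp : ∀ i j, cp θ r i j = (pp θ r t i * pp θ r t j + qq θ r t i * qq θ r t j) ^ 2 := by
      intro i j
      unfold cp
      rw [hcos, max_eq_right (add_nonneg (mul_nonneg (hP i) (hP j)) (mul_nonneg (hQ i) (hQ j)))]
    have hF : FF θ r c e = NN c e (fun i j => pp θ r t i ^ 2 * pp θ r t j ^ 2) +
        NN c e (fun i j => qq θ r t i ^ 2 * qq θ r t j ^ 2) +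
        2 * NN c e (fun i j => (pp θ r t i * qq θ r t i) * (pp θ r t j * qq θ r t j)) := by
      unfold FF NN
      simp_rw [hcos, hcp, Finset.mul_sum]
      simp_rw [← Finset.sum_add_distrib, ← Finset.sum_sub_distrib]
      refine Finset.sum_congr rfl (fun i _ => Finset.sum_congr rfl (fun j _ => ?_))
      ring
    rw [hF]
    have h1 := hMS (fun i => pp θ r t i ^ 2) (fun i => sq_nonneg _)
    have h2 := hMS (fun i => qq θ r t i ^ 2) (fun i => sq_nonneg _)
    have h3 := hMS (fun i => pp θ r t i * qq θ r t i) (fun i => mul_nonneg (hP i) (hQ i))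
    linarith


end AcuteX

alias acute_case := AcuteX.acute_case

end Pool.Agent.Helper255.BN
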