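import Pool.Agent.Helper255.BN.Defs

set_option autoImplicit false

open Finset


namespace Pool.Agent.Helper255.BN

namespace EndsX


theorem Ct_start {ι : Type*} [Fintype ι] [DecidableEq ι] (θ r : ι → ℝ) (c : ℝ) (e : ι → ι → ℝ)
    (B : Finset ι) (t : ℝ) : NN c e (Ct θ r ∅ B t) = 0 := by
  unfold NN
  refine Finset.sum_eq_zero fun i _ => Finset.sum_eq_zero fun j _ => ?_
  have : Ct θ r ∅ B t i j = 0 := by
    unfold Ct
    split_ifs <;> simp_all [Gk, S1, S2, S3]
  rw [this, mul_zero]



/-- the final value -/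
noncomputable def FF {ι : Type*} [Fintype ι] (θ r : ι → ℝ) (c : ℝ) (e : ι → ι → ℝ) : ℝ :=
  c * (∑ i, ∑ j, (r i * r j * Real.cos (θ i - θ j)) ^ 2) - ∑ i, ∑ j, e i j * cp θ r i j



theorem Ct_end_key {ι : Type*} [Fintype ι] [DecidableEq ι] (θ r : ι → ℝ)
    (A W : Finset ι) (t : ℝ) (h : Inv θ r A W ∅ t) (hA : A.Nonempty) (u : ι) (hu : θ u = t + Real.pi / 2)
    (i j : ι) : Ct θ r A ∅ t i j = cp θ r i j + (if i = j then ∑ k, cm θ r i k else 0) := by
  have hcosA : ∀ i ∈ A, 0 < Real.cos (θ i - t) := by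
    intro i hi
    have h1 := h.hA i hi
    have h2 := h.hpi u i
    rw [hu] at h2
    have h3 := Real.pi_pos
    exact Real.cos_pos_of_mem_Ioo ⟨by linarith, by linarith⟩
  have hsinA : ∀ i ∈ A, Real.sin (θ i - t) < 0 := by
    intro i hi
    have h1 := h.hA i hi
    have h2 := h.hpi u i
    have h4 := h.horth u i
    rw [hu] at h2 h4
    have h3 := Real.pi_pos
    have h5 : θ i < t := lt_of_le_of_ne h1 (fun h' => h4 (by rw [h']))
    exact Real.sin_neg_of_neg_of_neg_pi_lt (by linarith) (by linarith)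
  have hS1 : 0 < S1 θ r A t := Finset.sum_pos (fun i hi => by
    have := mul_pos (h.rpos i) (hcosA i hi)
    unfold pp; positivity) hA
  have hS2 : 0 < S2 θ r A t := Finset.sum_pos (fun i hi => by
    have h1 : r i * Real.sin (θ i - t) < 0 := mul_neg_of_pos_of_neg (h.rpos i) (hsinA i hi)
    unfold qq
    have := sq_pos_of_neg h1; exact this) hA
  have hS3 : S3 θ r A t < 0 := by
    unfold S3
    refine Finset.sum_neg (fun i hi => ?_) hA
    unfold pp qq
    exact mul_neg_of_pos_of_neg (mul_pos (h.rpos i) (hcosA i hi))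
      (mul_neg_of_pos_of_neg (h.rpos i) (hsinA i hi))
  have hWW : ∀ i ∈ W, ∀ j ∈ W, 0 ≤ r i * r j * Real.cos (θ i - θ j) := by
    intro i hi j hj
    have h1 := h.hW i hi
    have h2 := h.hW j hj
    have h3 : 0 ≤ Real.cos (θ i - θ j) :=
      Real.cos_nonneg_of_mem_Icc ⟨by linarith [h1.1, h2.2], by linarith [h1.2, h2.1]⟩
    have h4 := mul_pos (h.rpos i) (h.rpos j)
    positivity
  have hmem : ∀ i, i ∉ A → i ∈ W := by
    intro i hi
    rcases h.cover i with h' | h' | h'
    · exact absurd h' hi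
    · exact h'
    · exact absurd h' (Finset.notMem_empty i)
  unfold Ct
  by_cases hij : i ∈ A ∨ j ∈ A
  · rw [if_neg (by simp), if_pos hij]
  · rw [if_neg (by simp), if_neg hij]
    push Not at hij
    have hi := hmem i hij.1
    have hj := hmem j hij.2
    have e1 : S1 θ r (∅ : Finset ι) t = 0 := by simp [S1]
    have e2 : S2 θ r (∅ : Finset ι) t = 0 := by simp [S2]
    have e3 : S3 θ r (∅ : Finset ι) t = 0 := by simp [S3]
    have hG : Gk θ r A ∅ t i j = cp θ r i j := by
      unfold Gk cp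
      rw [e1, e2, e3, add_zero, add_zero, add_zero, div_self hS1.ne', div_self hS2.ne',
        div_self hS3.ne, max_eq_right (hWW i hi j hj)]
      have h1 : θ i - θ j = (θ i - t) - (θ j - t) := by ring
      rw [h1, Real.cos_sub]
      unfold pp qq
      ring
    rw [hG]
    congr 1
    by_cases hd : i = j
    · rw [if_pos hd, if_pos hd]
      refine Finset.sum_subset (Finset.subset_univ A) ?_
      intro k _ hk
      unfold cm
      have h1 := hWW i hi k (hmem k hk)
      rw [max_eq_left (by linarith)]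
      norm_num
    · rw [if_neg hd, if_neg hd]

theorem Ct_end {ι : Type*} [Fintype ι] [DecidableEq ι] (θ r : ι → ℝ) (c : ℝ) (e : ι → ι → ℝ) (he : ∀ i, e i i = 0)
    (A W : Finset ι) (t : ℝ) (h : Inv θ r A W ∅ t) (hA : A.Nonempty) (u : ι) (hu : θ u = t + Real.pi / 2) :
    NN c e (Ct θ r A ∅ t) = FF θ r c e := by
  unfold NN FF
  have h1 : ∀ i, ∑ j, (c - e i j) * Ct θ r A ∅ t i j =
      c * ∑ j, (r i * r j * Real.cos (θ i - θ j)) ^ 2 - ∑ j, e i j * cp θ r i j := by
    intro i
    have h2 : ∀ j, (c - e i j) * Ct θ r A ∅ t i j =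
        (c - e i j) * cp θ r i j + (if i = j then c * ∑ k, cm θ r i k else 0) := by
      intro j
      rw [Ct_end_key θ r A W t h hA u hu i j]
      by_cases hd : i = j
      · rw [if_pos hd, if_pos hd, ← hd, he i]; ring
      · rw [if_neg hd, if_neg hd]; ring
    simp only [h2]
    rw [Finset.sum_add_distrib, Finset.sum_ite_eq, if_pos (Finset.mem_univ i), Finset.mul_sum,
      Finset.mul_sum, ← Finset.sum_add_distrib, ← Finset.sum_sub_distrib]
    refine Finset.sum_congr rfl fun j _ => ?_
    have h3 : (r i * r j * Real.cos (θ i - θ j)) ^ 2 = cp θ r i j + cm θ r i j := by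
      unfold cp cm
      rcases le_total 0 (r i * r j * Real.cos (θ i - θ j)) with h4 | h4
      · rw [max_eq_right h4, max_eq_left (by linarith)]; ring
      · rw [max_eq_left h4, max_eq_right (by linarith)]; ring
    rw [h3]
    ring
  simp only [h1]
  rw [Finset.sum_sub_distrib, Finset.mul_sum]


end EndsX

alias Ct_start := EndsX.Ct_start

alias Ct_end := EndsX.Ct_end

end Pool.Agent.Helper255.BN
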