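import Pool.Agent.Helper255.BN.Defs

set_option autoImplicit false

open Finset


namespace Pool.Agent.Helper255.BN

namespace EntryX



theorem entry_step_P {ι : Type*} (θ r : ι → ℝ) (t : ℝ) (u : ι) (hut : θ u = t + Real.pi / 2) :
    pp θ r t u = 0 := by
  unfold pp
  rw [hut, add_sub_cancel_left, Real.cos_pi_div_two, mul_zero]

theorem entry_step_Q {ι : Type*} (θ r : ι → ℝ) (t : ℝ) (u : ι) (hut : θ u = t + Real.pi / 2) :
    qq θ r t u = r u := by
  unfold qq
  rw [hut, add_sub_cancel_left, Real.sin_pi_div_two, mul_one]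

theorem entry_step_S1 {ι : Type*} [DecidableEq ι] (θ r : ι → ℝ) (B : Finset ι) (t : ℝ) (u : ι)
    (hu : u ∈ B) (hut : θ u = t + Real.pi / 2) : S1 θ r (B.erase u) t = S1 θ r B t := by
  unfold S1
  rw [← Finset.add_sum_erase B _ hu, entry_step_P θ r t u hut]
  ring

theorem entry_step_S3 {ι : Type*} [DecidableEq ι] (θ r : ι → ℝ) (B : Finset ι) (t : ℝ) (u : ι)
    (hu : u ∈ B) (hut : θ u = t + Real.pi / 2) : S3 θ r (B.erase u) t = S3 θ r B t := by
  unfold S3
  rw [← Finset.add_sum_erase B _ hu, entry_step_P θ r t u hut]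
  ring

theorem entry_step_S2 {ι : Type*} [DecidableEq ι] (θ r : ι → ℝ) (B : Finset ι) (t : ℝ) (u : ι)
    (hu : u ∈ B) (hut : θ u = t + Real.pi / 2) :
    S2 θ r B t = r u ^ 2 + S2 θ r (B.erase u) t := by
  unfold S2
  rw [← Finset.add_sum_erase B _ hu, entry_step_Q θ r t u hut]

theorem entry_step_S2nn {ι : Type*} (θ r : ι → ℝ) (B : Finset ι) (t : ℝ) :
    0 ≤ S2 θ r B t := Finset.sum_nonneg fun i _ => sq_nonneg _

theorem entry_step_sin {ι : Type*} [Fintype ι] [DecidableEq ι] (θ r : ι → ℝ) (A W B : Finset ι)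
    (t : ℝ) (h : Inv θ r A W B t) (u : ι) (hut : θ u = t + Real.pi / 2) (k : ι) (hk : k ∈ A) :
    Real.sin (θ k - t) < 0 := by
  have h1 := h.hA k hk
  have h2 := h.horth u k
  have h3 := h.hpi u k
  have h4 : θ k ≠ t := fun h4 => h2 (by rw [hut, h4])
  have h5 : θ k < t := lt_of_le_of_ne h1 h4
  refine Real.sin_neg_of_neg_of_neg_pi_lt (by linarith) ?_
  have := Real.pi_pos
  linarith

theorem entry_step_cos {ι : Type*} (θ : ι → ℝ) (t : ℝ) (u : ι) (hut : θ u = t + Real.pi / 2)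
    (k : ι) : Real.cos (θ u - θ k) = Real.sin (θ k - t) := by
  have h1 : θ u - θ k = Real.pi / 2 - (θ k - t) := by rw [hut]; ring
  rw [h1, Real.cos_pi_div_two_sub]

theorem entry_step_cos' {ι : Type*} (θ : ι → ℝ) (t : ℝ) (u : ι) (hut : θ u = t + Real.pi / 2)
    (k : ι) : Real.cos (θ k - θ u) = Real.sin (θ k - t) := by
  rw [← entry_step_cos θ t u hut k, ← Real.cos_neg, neg_sub]

theorem entry_step_S2pos {ι : Type*} [Fintype ι] [DecidableEq ι] (θ r : ι → ℝ) (A W B : Finset ι)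
    (t : ℝ) (h : Inv θ r A W B t) (u : ι) (hut : θ u = t + Real.pi / 2) (hA : A.Nonempty) :
    0 < S2 θ r A t := by
  refine Finset.sum_pos (fun k hk => ?_) hA
  have h1 := entry_step_sin θ r A W B t h u hut k hk
  have h2 : qq θ r t k < 0 := mul_neg_of_pos_of_neg (h.rpos k) h1
  exact pow_pos_of_neg h2
where
  pow_pos_of_neg {x : ℝ} (hx : x < 0) : 0 < x ^ 2 := by nlinarith

theorem entry_step_cp {ι : Type*} [Fintype ι] [DecidableEq ι] (θ r : ι → ℝ) (A W B : Finset ι)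
    (t : ℝ) (h : Inv θ r A W B t) (u : ι) (hut : θ u = t + Real.pi / 2) (k : ι) (hk : k ∈ A) :
    cp θ r u k = 0 ∧ cp θ r k u = 0 := by
  have h1 := entry_step_sin θ r A W B t h u hut k hk
  have hu := h.rpos u
  have hk' := h.rpos k
  constructor
  · unfold cp
    rw [entry_step_cos θ t u hut k, max_eq_left, zero_pow (by norm_num)]
    exact (mul_neg_of_pos_of_neg (mul_pos hu hk') h1).le
  · unfold cp
    rw [entry_step_cos' θ t u hut k, max_eq_left, zero_pow (by norm_num)]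
    exact (mul_neg_of_pos_of_neg (mul_pos hk' hu) h1).le

theorem entry_step_cm {ι : Type*} [Fintype ι] [DecidableEq ι] (θ r : ι → ℝ) (A W B : Finset ι)
    (t : ℝ) (h : Inv θ r A W B t) (u : ι) (hut : θ u = t + Real.pi / 2) :
    ∑ k ∈ A, cm θ r u k = r u ^ 2 * S2 θ r A t := by
  unfold S2
  rw [Finset.mul_sum]
  refine Finset.sum_congr rfl fun k hk => ?_
  have h1 := entry_step_sin θ r A W B t h u hut k hk
  have hu := h.rpos u
  have hk' := h.rpos k
  unfold cm qq
  rw [entry_step_cos θ t u hut k, max_eq_right]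
  · ring
  · have := mul_neg_of_pos_of_neg (mul_pos hu hk') h1
    linarith

theorem entry_step_G {ι : Type*} [DecidableEq ι] (θ r : ι → ℝ) (A B : Finset ι) (t : ℝ) (u : ι)
    (hu : u ∈ B) (hut : θ u = t + Real.pi / 2) (i j : ι) :
    Gk θ r A (B.erase u) t i j - Gk θ r A B t i j =
      (S2 θ r A t / (S2 θ r A t + S2 θ r (B.erase u) t) -
        S2 θ r A t / (S2 θ r A t + S2 θ r B t)) * (qq θ r t i ^ 2 * qq θ r t j ^ 2) := by
  unfold Gk
  rw [entry_step_S1 θ r B t u hu hut, entry_step_S3 θ r B t u hu hut]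
  ring

theorem entry_step_Gu {ι : Type*} [DecidableEq ι] (θ r : ι → ℝ) (A B : Finset ι) (t : ℝ) (u : ι)
    (hut : θ u = t + Real.pi / 2) (j : ι) :
    Gk θ r A B t u j =
      S2 θ r A t / (S2 θ r A t + S2 θ r B t) * (r u ^ 2 * qq θ r t j ^ 2) := by
  unfold Gk
  rw [entry_step_P θ r t u hut, entry_step_Q θ r t u hut]
  ring

theorem entry_step_Gu' {ι : Type*} [DecidableEq ι] (θ r : ι → ℝ) (A B : Finset ι) (t : ℝ) (u : ι)
    (hut : θ u = t + Real.pi / 2) (j : ι) :
    Gk θ r A B t j u =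
      S2 θ r A t / (S2 θ r A t + S2 θ r B t) * (r u ^ 2 * qq θ r t j ^ 2) := by
  unfold Gk
  rw [entry_step_P θ r t u hut, entry_step_Q θ r t u hut]
  ring

theorem entry_step {ι : Type*} [Fintype ι] [DecidableEq ι] (θ r : ι → ℝ) (A W B : Finset ι) (t : ℝ)
    (h : Inv θ r A W B t) (u : ι) (hu : u ∈ B) (hut : θ u = t + Real.pi / 2) (hA : A.Nonempty) :
    ∃ f : ι → ℝ, (∀ i, 0 ≤ f i) ∧ ∀ i j, Ct θ r A (B.erase u) t i j - Ct θ r A B t i j = f i * f j := by
  have ha := entry_step_S2pos θ r A W B t h u hut hA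
  have hb' := entry_step_S2nn θ r (B.erase u) t
  have hb := entry_step_S2 θ r B t u hu hut
  have hru := h.rpos u
  have hru2 : 0 < r u ^ 2 := by positivity
  obtain ⟨a, hadef⟩ : ∃ a, a = S2 θ r A t := ⟨_, rfl⟩
  obtain ⟨b', hbdef⟩ : ∃ b', b' = S2 θ r (B.erase u) t := ⟨_, rfl⟩
  rw [← hadef] at ha
  rw [← hbdef] at hb' hb
  have hab : 0 < a + b' := by linarith
  have hab2 : 0 < a + (r u ^ 2 + b') := by linarith
  obtain ⟨D, hD⟩ : ∃ D, D = a / (a + b') - a / (a + (r u ^ 2 + b')) := ⟨_, rfl⟩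
  have hDpos : 0 < D := by
    rw [hD, sub_pos]
    exact div_lt_div_of_pos_left ha hab (by linarith)
  have hDval : D = a * r u ^ 2 / ((a + b') * (a + (r u ^ 2 + b'))) := by
    rw [hD]
    field_simp
    ring
  have hsq : 0 < Real.sqrt D := Real.sqrt_pos.2 hDpos
  have hsq2 : Real.sqrt D * Real.sqrt D = D := Real.mul_self_sqrt hDpos.le
  have huA : u ∉ A := fun h1 => Finset.disjoint_left.1 h.dAB h1 hu
  have huW : u ∉ W := fun h1 => Finset.disjoint_left.1 h.dWB h1 hu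
  have hW : ∀ i ∈ W, i ∉ A ∧ i ∉ B ∧ i ≠ u := fun i hi =>
    ⟨fun h1 => Finset.disjoint_left.1 h.dAW h1 hi, fun h1 => Finset.disjoint_left.1 h.dWB hi h1,
      fun h1 => huW (h1 ▸ hi)⟩
  have hAA : ∀ i ∈ A, i ∉ W ∧ i ∉ B ∧ i ≠ u := fun i hi =>
    ⟨fun h1 => Finset.disjoint_left.1 h.dAW hi h1, fun h1 => Finset.disjoint_left.1 h.dAB hi h1,
      fun h1 => huA (h1 ▸ hi)⟩
  have hBB : ∀ i ∈ B.erase u, i ∉ W ∧ i ≠ u ∧ i ∈ B := fun i hi =>
    ⟨fun h1 => Finset.disjoint_left.1 h.dWB h1 (Finset.mem_of_mem_erase hi),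
      Finset.ne_of_mem_erase hi, Finset.mem_of_mem_erase hi⟩
  have huB' : u ∉ B.erase u := Finset.notMem_erase u B
  have hcase : ∀ i, i ∈ B.erase u ∨ i = u ∨ i ∈ A ∨ i ∈ W := by
    intro i
    rcases h.cover i with h1 | h1 | h1
    · exact Or.inr (Or.inr (Or.inl h1))
    · exact Or.inr (Or.inr (Or.inr h1))
    · by_cases h2 : i = u
      · exact Or.inr (Or.inl h2)
      · exact Or.inl (Finset.mem_erase.2 ⟨h2, h1⟩)
  obtain ⟨f, hf⟩ : ∃ f : ι → ℝ, f = fun i => if i ∈ W then Real.sqrt D * qq θ r t i ^ 2 else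
    if i = u then a / (a + b') * r u ^ 2 / Real.sqrt D else 0 := ⟨_, rfl⟩
  have hfW : ∀ i ∈ W, f i = Real.sqrt D * qq θ r t i ^ 2 := fun i hi => by
    rw [hf]; exact if_pos hi
  have hfu : f u = a / (a + b') * r u ^ 2 / Real.sqrt D := by
    rw [hf]
    simp only [if_neg huW, if_true]
  have hfA : ∀ i ∈ A, f i = 0 := fun i hi => by
    rw [hf]
    simp only [if_neg (hAA i hi).1, if_neg (hAA i hi).2.2]
  have hfB : ∀ i ∈ B.erase u, f i = 0 := fun i hi => by
    rw [hf]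
    simp only [if_neg (hBB i hi).1, if_neg (hBB i hi).2.1]
  have hGdiff : ∀ i j, Gk θ r A (B.erase u) t i j - Gk θ r A B t i j =
      D * (qq θ r t i ^ 2 * qq θ r t j ^ 2) := by
    intro i j
    rw [entry_step_G θ r A B t u hu hut i j, ← hadef, ← hbdef, hb, hD]
  have hGu : ∀ j, Gk θ r A (B.erase u) t u j = a / (a + b') * (r u ^ 2 * qq θ r t j ^ 2) := by
    intro j
    rw [entry_step_Gu θ r A (B.erase u) t u hut j, ← hadef, ← hbdef]
  have hGu' : ∀ j, Gk θ r A (B.erase u) t j u = a / (a + b') * (r u ^ 2 * qq θ r t j ^ 2) := by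
    intro j
    rw [entry_step_Gu' θ r A (B.erase u) t u hut j, ← hadef, ← hbdef]
  have hcm := entry_step_cm θ r A W B t h u hut
  rw [← hadef] at hcm
  have hfuW : ∀ j ∈ W, a / (a + b') * (r u ^ 2 * qq θ r t j ^ 2) = f u * f j := by
    intro j hj
    rw [hfu, hfW j hj]
    field_simp
  refine ⟨f, ?_, ?_⟩
  · intro i
    rcases hcase i with h1 | h1 | h1 | h1
    · rw [hfB i h1]
    · rw [h1, hfu]; positivity
    · rw [hfA i h1]
    · rw [hfW i h1]; positivity
  · intro i j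
    unfold Ct
    rcases hcase i with hi | hi | hi | hi
    · rw [if_pos (Or.inl hi), if_pos (Or.inl (hBB i hi).2.2), hfB i hi]
      ring
    · subst hi
      rw [if_pos (Or.inl hu) (t := (0 : ℝ))]
      rcases hcase j with hj | hj | hj | hj
      · rw [if_pos (Or.inr hj), hfB j hj]
        ring
      · subst hj
        rw [if_neg (not_or.2 ⟨huB', huB'⟩), if_neg (not_or.2 ⟨huA, huA⟩), if_pos rfl, hcm, hGu,
          entry_step_Q θ r t j hut, hfu]
        have h5 : a / (a + b') * r j ^ 2 / Real.sqrt D * (a / (a + b') * r j ^ 2 / Real.sqrt D) =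
            (a / (a + b') * r j ^ 2) ^ 2 / D := by
          rw [div_mul_div_comm, hsq2]
          ring
        rw [h5, hDval]
        field_simp
        ring
      · have hne : i ≠ j := fun h1 => (hAA j hj).2.2 h1.symm
        have hjB : j ∉ B.erase i := fun h1 => (hAA j hj).2.1 (hBB j h1).2.2
        rw [if_neg (not_or.2 ⟨huB', hjB⟩), if_pos (Or.inr hj), if_neg hne, hfA j hj,
          (entry_step_cp θ r A W B t h i hut j hj).1]
        ring
      · have hne : i ≠ j := fun h1 => (hW j hj).2.2 h1.symm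
        have hjB : j ∉ B.erase i := fun h1 => (hW j hj).2.1 (hBB j h1).2.2
        rw [if_neg (not_or.2 ⟨huB', hjB⟩), if_neg (not_or.2 ⟨huA, (hW j hj).1⟩), if_neg hne, hGu,
          ← hfuW j hj]
        ring
    · rcases hcase j with hj | hj | hj | hj
      · rw [if_pos (Or.inr hj), if_pos (Or.inr (hBB j hj).2.2), hfB j hj]
        ring
      · subst hj
        have hne : i ≠ j := (hAA i hi).2.2
        have hiB : i ∉ B.erase j := fun h1 => (hAA i hi).2.1 (hBB i h1).2.2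
        rw [if_pos (Or.inr hu) (t := (0 : ℝ)), if_neg (not_or.2 ⟨hiB, huB'⟩), if_pos (Or.inl hi),
          if_neg hne, hfA i hi, (entry_step_cp θ r A W B t h j hut i hi).2]
        ring
      · have hiB : i ∉ B.erase u := fun h1 => (hAA i hi).2.1 (hBB i h1).2.2
        have hjB : j ∉ B.erase u := fun h1 => (hAA j hj).2.1 (hBB j h1).2.2
        rw [if_neg (not_or.2 ⟨hiB, hjB⟩), if_neg (not_or.2 ⟨(hAA i hi).2.1, (hAA j hj).2.1⟩),
          if_pos (Or.inl hi), if_pos (Or.inl hi), hfA i hi]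
        ring
      · have hiB : i ∉ B.erase u := fun h1 => (hAA i hi).2.1 (hBB i h1).2.2
        have hjB : j ∉ B.erase u := fun h1 => (hW j hj).2.1 (hBB j h1).2.2
        rw [if_neg (not_or.2 ⟨hiB, hjB⟩), if_neg (not_or.2 ⟨(hAA i hi).2.1, (hW j hj).2.1⟩),
          if_pos (Or.inl hi), if_pos (Or.inl hi), hfA i hi]
        ring
    · rcases hcase j with hj | hj | hj | hj
      · rw [if_pos (Or.inr hj), if_pos (Or.inr (hBB j hj).2.2), hfB j hj]
        ring
      · subst hj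
        have hne : i ≠ j := (hW i hi).2.2
        have hiB : i ∉ B.erase j := fun h1 => (hW i hi).2.1 (hBB i h1).2.2
        rw [if_pos (Or.inr hu) (t := (0 : ℝ)), if_neg (not_or.2 ⟨hiB, huB'⟩),
          if_neg (not_or.2 ⟨(hW i hi).1, huA⟩), if_neg hne, hGu', hfuW i hi]
        ring
      · have hiB : i ∉ B.erase u := fun h1 => (hW i hi).2.1 (hBB i h1).2.2
        have hjB : j ∉ B.erase u := fun h1 => (hAA j hj).2.1 (hBB j h1).2.2
        rw [if_neg (not_or.2 ⟨hiB, hjB⟩), if_neg (not_or.2 ⟨(hW i hi).2.1, (hAA j hj).2.1⟩),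
          if_pos (Or.inr hj), if_pos (Or.inr hj), hfA j hj]
        ring
      · have hiB : i ∉ B.erase u := fun h1 => (hW i hi).2.1 (hBB i h1).2.2
        have hjB : j ∉ B.erase u := fun h1 => (hW j hj).2.1 (hBB j h1).2.2
        rw [if_neg (not_or.2 ⟨hiB, hjB⟩), if_neg (not_or.2 ⟨(hW i hi).2.1, (hW j hj).2.1⟩),
          if_neg (not_or.2 ⟨(hW i hi).1, (hW j hj).1⟩), if_neg (not_or.2 ⟨(hW i hi).1, (hW j hj).1⟩),
          hfW i hi, hfW j hj]
        have h6 := hGdiff i j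
        have h7 : Real.sqrt D * qq θ r t i ^ 2 * (Real.sqrt D * qq θ r t j ^ 2) =
            D * (qq θ r t i ^ 2 * qq θ r t j ^ 2) := by
          calc _ = (Real.sqrt D * Real.sqrt D) * (qq θ r t i ^ 2 * qq θ r t j ^ 2) := by ring
            _ = _ := by rw [hsq2]
        rw [h7, ← h6]
        ring


end EntryX

alias entry_step := EntryX.entry_step

end Pool.Agent.Helper255.BN
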