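import Pool.Agent.Helper255.BN.Defs

set_option autoImplicit false

open Finset


namespace Pool.Agent.Helper255.BN

namespace ExitX


theorem Ct_B {ι : Type*} [Fintype ι] [DecidableEq ι] (θ r : ι → ℝ) (A B : Finset ι) (t : ℝ) (i j : ι)
    (h : i ∈ B ∨ j ∈ B) : Ct θ r A B t i j = 0 := by
  unfold Ct; rw [if_pos h]

theorem Ct_A {ι : Type*} [Fintype ι] [DecidableEq ι] (θ r : ι → ℝ) (A B : Finset ι) (t : ℝ) (i j : ι)
    (h1 : i ∉ B) (h2 : j ∉ B) (h : i ∈ A ∨ j ∈ A) :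
    Ct θ r A B t i j = cp θ r i j + (if i = j then ∑ k, cm θ r i k else 0) := by
  unfold Ct; rw [if_neg (by tauto), if_pos h]

theorem Ct_W {ι : Type*} [Fintype ι] [DecidableEq ι] (θ r : ι → ℝ) (A B : Finset ι) (t : ℝ) (i j : ι)
    (h1 : i ∉ B) (h2 : j ∉ B) (h3 : i ∉ A) (h4 : j ∉ A) :
    Ct θ r A B t i j = Gk θ r A B t i j + (if i = j then ∑ k ∈ A, cm θ r i k else 0) := by
  unfold Ct; rw [if_neg (by tauto), if_neg (by tauto)]


theorem exit_step {ι : Type*} [Fintype ι] [DecidableEq ι] (θ r : ι → ℝ) (A W B : Finset ι) (t : ℝ)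
    (h : Inv θ r A W B t) (k : ι) (hk : k ∈ W) (hkt : θ k = t) (hB : B.Nonempty) :
    ∃ f : ι → ℝ, (∀ i, 0 ≤ f i) ∧ ∀ i j, Ct θ r (insert k A) B t i j - Ct θ r A B t i j = f i * f j := by
  have hkA : k ∉ A := fun hc => (Finset.disjoint_left.1 h.dAW) hc hk
  have hkB : k ∉ B := fun hc => (Finset.disjoint_left.1 h.dWB) hk hc
  have hWA : ∀ i, i ∈ W → i ∉ A := fun i hi hc => (Finset.disjoint_left.1 h.dAW) hc hi
  have hWB : ∀ i, i ∈ W → i ∉ B := fun i hi hc => (Finset.disjoint_left.1 h.dWB) hi hc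
  have hAB : ∀ i, i ∈ A → i ∉ B := fun i hi hc => (Finset.disjoint_left.1 h.dAB) hi hc
  have hPk : pp θ r t k = r k := by simp [pp, hkt]
  have hQk : qq θ r t k = 0 := by simp [qq, hkt]
  have hrk := h.rpos k
  have ha0 : 0 ≤ S1 θ r A t := Finset.sum_nonneg fun i _ => sq_nonneg _
  have hBcos : ∀ j ∈ B, Real.cos (θ j - t) < 0 := by
    intro j hj
    have h1 := h.hB j hj
    have h2 := h.horth j k
    have h3 := h.hpi j k
    rw [hkt] at h2 h3
    have h4 : t + Real.pi/2 < θ j := lt_of_le_of_ne h1 (Ne.symm h2)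
    exact Real.cos_neg_of_pi_div_two_lt_of_lt (by linarith) (by linarith [Real.pi_pos])
  have hb0 : 0 < S1 θ r B t := by
    apply Finset.sum_pos _ hB
    intro j hj
    have h1 := hBcos j hj
    have h2 : pp θ r t j < 0 := mul_neg_of_pos_of_neg (h.rpos j) h1
    have h3 : pp θ r t j ≠ 0 := ne_of_lt h2
    positivity
  have hWcos : ∀ j ∈ W, 0 ≤ Real.cos (θ j - t) := by
    intro j hj
    obtain ⟨h1, h2⟩ := h.hW j hj
    exact Real.cos_nonneg_of_neg_pi_div_two_le_of_le (by linarith [Real.pi_pos]) (by linarith)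
  have hcossym : ∀ j, Real.cos (t - θ j) = Real.cos (θ j - t) := by
    intro j
    rw [← Real.cos_neg]; congr 1; ring
  have hcmk : ∀ j ∈ W, cm θ r k j = 0 := by
    intro j hj
    have h1 := hWcos j hj
    have h2 : 0 ≤ r k * r j * Real.cos (θ j - t) :=
      mul_nonneg (mul_nonneg hrk.le (h.rpos j).le) h1
    unfold cm
    rw [hkt, hcossym, max_eq_left (by linarith)]
    simp
  have hcmk' : ∀ j ∈ W, cm θ r j k = 0 := by
    intro j hj
    have h1 := hWcos j hj
    have h2 : 0 ≤ r j * r k * Real.cos (θ j - t) :=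
      mul_nonneg (mul_nonneg (h.rpos j).le hrk.le) h1
    unfold cm
    rw [hkt, max_eq_left (by linarith)]
    simp
  have hcpk : ∀ j ∈ W, cp θ r k j = (r k * pp θ r t j)^2 := by
    intro j hj
    have h1 := hWcos j hj
    have h2 : 0 ≤ r k * r j * Real.cos (θ j - t) :=
      mul_nonneg (mul_nonneg hrk.le (h.rpos j).le) h1
    unfold cp pp
    rw [hkt, hcossym, max_eq_right h2]
    ring
  have hcpk' : ∀ j ∈ W, cp θ r j k = (r k * pp θ r t j)^2 := by
    intro j hj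
    have h1 := hWcos j hj
    have h2 : 0 ≤ r j * r k * Real.cos (θ j - t) :=
      mul_nonneg (mul_nonneg (h.rpos j).le hrk.le) h1
    unfold cp pp
    rw [hkt, max_eq_right h2]
    ring
  have hcmB : ∀ j ∈ B, cm θ r k j = (r k * pp θ r t j)^2 := by
    intro j hj
    have h1 := hBcos j hj
    have h2 : 0 ≤ -(r k * r j * Real.cos (θ j - t)) := by
      have : 0 < r k * r j := mul_pos hrk (h.rpos j)
      nlinarith
    unfold cm pp
    rw [hkt, hcossym, max_eq_right h2]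
    ring
  have hS1 : S1 θ r (insert k A) t = S1 θ r A t + r k ^ 2 := by
    unfold S1
    rw [Finset.sum_insert hkA, hPk]; ring
  have hS2 : S2 θ r (insert k A) t = S2 θ r A t := by
    unfold S2
    rw [Finset.sum_insert hkA, hQk]; ring
  have hS3 : S3 θ r (insert k A) t = S3 θ r A t := by
    unfold S3
    rw [Finset.sum_insert hkA, hQk]; ring
  have hsumB : ∑ j ∈ B, cm θ r k j = r k ^ 2 * S1 θ r B t := by
    unfold S1
    rw [Finset.mul_sum]
    refine Finset.sum_congr rfl fun j hj => ?_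
    rw [hcmB j hj]; ring
  have huniv : (Finset.univ : Finset ι) = A ∪ (W ∪ B) := by
    ext i; simpa using h.cover i
  have hsum : ∑ j, cm θ r k j = ∑ j ∈ A, cm θ r k j + r k ^ 2 * S1 θ r B t := by
    rw [huniv, Finset.sum_union (Finset.disjoint_union_right.2 ⟨h.dAW, h.dAB⟩),
      Finset.sum_union h.dWB, hsumB, Finset.sum_eq_zero hcmk, zero_add]
  have hcpkk : cp θ r k k = r k ^ 4 := by
    rw [hcpk k hk, hPk]; ring
  have hinsert : ∀ i ∈ W, ∑ j ∈ insert k A, cm θ r i j = ∑ j ∈ A, cm θ r i j := by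
    intro i hi
    rw [Finset.sum_insert hkA, hcmk' i hi, zero_add]
  obtain ⟨a, ha⟩ : ∃ a, a = S1 θ r A t := ⟨_, rfl⟩
  obtain ⟨b, hb⟩ : ∃ b, b = S1 θ r B t := ⟨_, rfl⟩
  obtain ⟨ρ, hρ⟩ : ∃ ρ, ρ = r k := ⟨_, rfl⟩
  rw [← ha] at ha0 hS1
  rw [← hb] at hb0 hsum
  rw [← hρ] at hrk hS1 hsum hcpkk hPk
  have hΔ : 0 < b * ρ ^ 2 / ((a + b) * (a + ρ ^ 2 + b)) := by positivity
  obtain ⟨s, hs⟩ : ∃ s, s = Real.sqrt (b * ρ ^ 2 / ((a + b) * (a + ρ ^ 2 + b))) := ⟨_, rfl⟩
  have hs0 : 0 < s := by rw [hs]; exact Real.sqrt_pos.2 hΔ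
  have hs2 : s * s = b * ρ ^ 2 / ((a + b) * (a + ρ ^ 2 + b)) := by
    rw [hs]; exact Real.mul_self_sqrt hΔ.le
  have hD : a + b ≠ 0 := by positivity
  have hD' : a + ρ ^ 2 + b ≠ 0 := by positivity
  refine ⟨fun i => if i = k then b / (a + b) * ρ ^ 2 / s else if i ∈ W then s * pp θ r t i ^ 2 else 0,
    ?_, ?_⟩
  · intro i
    dsimp only
    split_ifs
    · positivity
    · positivity
    · exact le_rfl
  have hG1 : ∀ i j, Gk θ r (insert k A) B t i j - Gk θ r A B t i j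
      = s * s * (pp θ r t i ^ 2 * pp θ r t j ^ 2) := by
    intro i j
    unfold Gk
    rw [hS1, hS2, hS3, ← ha, ← hb, hs2]
    have : (a + ρ ^ 2) / (a + ρ ^ 2 + b) - a / (a + b) = b * ρ ^ 2 / ((a + b) * (a + ρ ^ 2 + b)) := by
      field_simp; ring
    rw [← this]; ring
  have hG2 : ∀ j, Gk θ r A B t k j = a / (a + b) * (ρ ^ 2 * pp θ r t j ^ 2) := by
    intro j
    unfold Gk
    rw [hPk, hQk, ← ha, ← hb]; ring
  have hG3 : ∀ j, Gk θ r A B t j k = a / (a + b) * (ρ ^ 2 * pp θ r t j ^ 2) := by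
    intro j
    unfold Gk
    rw [hPk, hQk, ← ha, ← hb]; ring
  have h1x : 1 - a / (a + b) = b / (a + b) := by field_simp; ring
  intro i j
  dsimp only
  -- membership of i and j
  by_cases hBB : i ∈ B ∨ j ∈ B
  · rw [Ct_B _ _ _ _ _ _ _ hBB, Ct_B _ _ _ _ _ _ _ hBB, sub_zero]
    rcases hBB with hi | hj
    · rw [if_neg (fun e => hkB (e ▸ hi) : ¬ i = k), if_neg (fun e => hWB i e hi : ¬ i ∈ W), zero_mul]
    · rw [if_neg (fun e => hkB (e ▸ hj) : ¬ j = k), if_neg (fun e => hWB j e hj : ¬ j ∈ W), mul_zero]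
  have hiB : i ∉ B := fun e => hBB (Or.inl e)
  have hjB : j ∉ B := fun e => hBB (Or.inr e)
  by_cases hAA : i ∈ A ∨ j ∈ A
  · rw [Ct_A _ _ _ _ _ _ _ hiB hjB (hAA.imp (Finset.mem_insert_of_mem) (Finset.mem_insert_of_mem)),
      Ct_A _ _ _ _ _ _ _ hiB hjB hAA, sub_self]
    rcases hAA with hi | hj
    · rw [if_neg (fun e => hkA (e ▸ hi) : ¬ i = k), if_neg (fun e => hWA i e hi : ¬ i ∈ W), zero_mul]
    · rw [if_neg (fun e => hkA (e ▸ hj) : ¬ j = k), if_neg (fun e => hWA j e hj : ¬ j ∈ W), mul_zero]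
  have hiA : i ∉ A := fun e => hAA (Or.inl e)
  have hjA : j ∉ A := fun e => hAA (Or.inr e)
  have hi : i ∈ W := by
    rcases h.cover i with h1 | h1 | h1
    · exact absurd h1 hiA
    · exact h1
    · exact absurd h1 hiB
  have hj : j ∈ W := by
    rcases h.cover j with h1 | h1 | h1
    · exact absurd h1 hjA
    · exact h1
    · exact absurd h1 hjB
  rw [Ct_W _ _ _ _ _ _ _ hiB hjB hiA hjA]
  by_cases hik : i = k
  · by_cases hjk : j = k
    · subst hjk
      subst hik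
      rw [if_pos rfl, if_pos rfl, Ct_A _ _ _ _ _ _ _ hiB hjB (Or.inl (Finset.mem_insert_self _ _)),
        if_pos rfl, hsum, hcpkk, hG2, hPk]
      have e1 : b / (a + b) * ρ ^ 2 / s * (b / (a + b) * ρ ^ 2 / s)
          = (b / (a + b) * ρ ^ 2) ^ 2 / (s * s) := by field_simp
      rw [e1, hs2]
      field_simp
      ring
    · subst hik
      rw [if_pos rfl, if_neg hjk, if_pos hj,
        Ct_A _ _ _ _ _ _ _ hiB hjB (Or.inl (Finset.mem_insert_self _ _)),
        if_neg (Ne.symm hjk), if_neg (Ne.symm hjk), hcpk j hj, hG2, ← hρ]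
      have e1 : b / (a + b) * ρ ^ 2 / s * (s * pp θ r t j ^ 2)
          = b / (a + b) * (ρ ^ 2 * pp θ r t j ^ 2) := by
        field_simp
      rw [e1, ← h1x]
      ring
  · by_cases hjk : j = k
    · subst hjk
      rw [if_neg hik, if_neg hik, if_pos hi, if_pos rfl,
        Ct_A _ _ _ _ _ _ _ hiB hjB (Or.inr (Finset.mem_insert_self _ _)),
        if_neg hik, hcpk' i hi, hG3, ← hρ]
      have e1 : (s * pp θ r t i ^ 2) * (b / (a + b) * ρ ^ 2 / s)
          = b / (a + b) * (ρ ^ 2 * pp θ r t i ^ 2) := by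
        field_simp
      rw [e1, ← h1x]
      ring
    · have n1 : i ∉ insert k A := by simp only [Finset.mem_insert]; tauto
      have n2 : j ∉ insert k A := by simp only [Finset.mem_insert]; tauto
      rw [if_neg hik, if_pos hi, if_neg hjk, if_pos hj, Ct_W _ _ _ _ _ _ _ hiB hjB n1 n2, hinsert i hi]
      have := hG1 i j
      linear_combination this


end ExitX

alias exit_step := ExitX.exit_step

end Pool.Agent.Helper255.BN
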