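import Pool.Agent.Helper255.BN.Defs

set_option autoImplicit false

open Finset


namespace Pool.Agent.Helper255.BN

namespace DerivX


theorem hasDerivAt_Gk_pp {ι : Type*} (θ r : ι → ℝ) (t : ℝ) (i : ι) :
    HasDerivAt (fun s => pp θ r s i) (qq θ r t i) t := by
  unfold pp qq
  have h : HasDerivAt (fun s : ℝ => θ i - s) (-1) t := by
    simpa using (hasDerivAt_id t).const_sub (θ i)
  have h2 := (h.cos).const_mul (r i)
  exact h2.congr_deriv (by ring)

theorem hasDerivAt_Gk_qq {ι : Type*} (θ r : ι → ℝ) (t : ℝ) (i : ι) :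
    HasDerivAt (fun s => qq θ r s i) (-(pp θ r t i)) t := by
  unfold pp qq
  have h : HasDerivAt (fun s : ℝ => θ i - s) (-1) t := by
    simpa using (hasDerivAt_id t).const_sub (θ i)
  have h2 := (h.sin).const_mul (r i)
  exact h2.congr_deriv (by ring)

theorem hasDerivAt_Gk_S1 {ι : Type*} (θ r : ι → ℝ) (A : Finset ι) (t : ℝ) :
    HasDerivAt (fun s => S1 θ r A s) (2 * S3 θ r A t) t := by
  unfold S1 S3
  have h : HasDerivAt (fun s => ∑ i ∈ A, pp θ r s i ^ 2)
      (∑ i ∈ A, (2 * (pp θ r t i * qq θ r t i))) t := by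
    apply HasDerivAt.fun_sum
    intro i _
    have h1 := (hasDerivAt_Gk_pp θ r t i).fun_pow 2
    exact h1.congr_deriv (by push_cast; ring)
  rw [Finset.mul_sum]
  exact h

theorem hasDerivAt_Gk_S2 {ι : Type*} (θ r : ι → ℝ) (A : Finset ι) (t : ℝ) :
    HasDerivAt (fun s => S2 θ r A s) (-(2 * S3 θ r A t)) t := by
  unfold S2 S3
  have h : HasDerivAt (fun s => ∑ i ∈ A, qq θ r s i ^ 2)
      (∑ i ∈ A, (-(2 * (pp θ r t i * qq θ r t i)))) t := by
    apply HasDerivAt.fun_sum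
    intro i _
    have h1 := (hasDerivAt_Gk_qq θ r t i).fun_pow 2
    exact h1.congr_deriv (by push_cast; ring)
  rw [Finset.mul_sum, ← Finset.sum_neg_distrib]
  exact h

theorem hasDerivAt_Gk_S3 {ι : Type*} (θ r : ι → ℝ) (A : Finset ι) (t : ℝ) :
    HasDerivAt (fun s => S3 θ r A s) (S2 θ r A t - S1 θ r A t) t := by
  unfold S1 S2 S3
  have h : HasDerivAt (fun s => ∑ i ∈ A, pp θ r s i * qq θ r s i)
      (∑ i ∈ A, (qq θ r t i ^ 2 - pp θ r t i ^ 2)) t := by
    apply HasDerivAt.fun_sum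
    intro i _
    have h1 := (hasDerivAt_Gk_pp θ r t i).fun_mul (hasDerivAt_Gk_qq θ r t i)
    exact h1.congr_deriv (by ring)
  rw [← Finset.sum_sub_distrib]
  exact h

/-- derivative of the rotating kernel -/
theorem hasDerivAt_Gk {ι : Type*} (θ r : ι → ℝ) (A B : Finset ι) (t : ℝ) (i j : ι)
    (h1 : S1 θ r A t + S1 θ r B t ≠ 0) (h2 : S2 θ r A t + S2 θ r B t ≠ 0) (h3 : S3 θ r A t + S3 θ r B t ≠ 0) :
    HasDerivAt (fun s => Gk θ r A B s i j)
      (2 * (S3 θ r A t * S1 θ r B t - S1 θ r A t * S3 θ r B t)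
          * ((pp θ r t i ^ 2 / (S1 θ r A t + S1 θ r B t) - pp θ r t i * qq θ r t i / (S3 θ r A t + S3 θ r B t))
            * (pp θ r t j ^ 2 / (S1 θ r A t + S1 θ r B t) - pp θ r t j * qq θ r t j / (S3 θ r A t + S3 θ r B t)))
        + 2 * (S2 θ r A t * S3 θ r B t - S3 θ r A t * S2 θ r B t)
          * ((qq θ r t i ^ 2 / (S2 θ r A t + S2 θ r B t) - pp θ r t i * qq θ r t i / (S3 θ r A t + S3 θ r B t))
            * (qq θ r t j ^ 2 / (S2 θ r A t + S2 θ r B t) - pp θ r t j * qq θ r t j / (S3 θ r A t + S3 θ r B t)))) t := by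
  have hpi := hasDerivAt_Gk_pp θ r t i
  have hpj := hasDerivAt_Gk_pp θ r t j
  have hqi := hasDerivAt_Gk_qq θ r t i
  have hqj := hasDerivAt_Gk_qq θ r t j
  have hx := (hasDerivAt_Gk_S1 θ r A t).fun_div
    ((hasDerivAt_Gk_S1 θ r A t).fun_add (hasDerivAt_Gk_S1 θ r B t)) h1
  have hy := (hasDerivAt_Gk_S2 θ r A t).fun_div
    ((hasDerivAt_Gk_S2 θ r A t).fun_add (hasDerivAt_Gk_S2 θ r B t)) h2
  have hz := (hasDerivAt_Gk_S3 θ r A t).fun_div
    ((hasDerivAt_Gk_S3 θ r A t).fun_add (hasDerivAt_Gk_S3 θ r B t)) h3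
  have hX := hx.fun_mul ((hpi.fun_pow 2).fun_mul (hpj.fun_pow 2))
  have hY := hy.fun_mul ((hqi.fun_pow 2).fun_mul (hqj.fun_pow 2))
  have hZ := (hz.const_mul 2).fun_mul ((hpi.fun_mul hqi).fun_mul (hpj.fun_mul hqj))
  have hall := (hX.fun_add hY).fun_add hZ
  unfold Gk
  refine hall.congr_deriv ?_
  generalize S1 θ r A t = a1 at *
  generalize S2 θ r A t = a2 at *
  generalize S3 θ r A t = a3 at *
  generalize S1 θ r B t = b1 at *
  generalize S2 θ r B t = b2 at *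
  generalize S3 θ r B t = b3 at *
  generalize pp θ r t i = u at *
  generalize pp θ r t j = v at *
  generalize qq θ r t i = w at *
  generalize qq θ r t j = y at *
  clear hall hX hY hZ hx hy hz hpi hpj hqi hqj
  push_cast
  field_simp
  ring


end DerivX

alias hasDerivAt_Gk := DerivX.hasDerivAt_Gk

end Pool.Agent.Helper255.BN
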