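import Pool.Agent.Helper255.BN.Defs

set_option autoImplicit false

open Finset


namespace Pool.Agent.Helper255.BN

namespace SSignX


theorem S_sign {ι : Type*} [Fintype ι] [DecidableEq ι] (θ r : ι → ℝ) (A W B : Finset ι) (t : ℝ)
    (h : Inv θ r A W B t) (hA : A.Nonempty) (hB : B.Nonempty) :
    0 < S1 θ r A t + S1 θ r B t ∧ 0 < S2 θ r A t + S2 θ r B t ∧ S3 θ r A t + S3 θ r B t < 0 := by
  obtain ⟨i0, hi0⟩ := hA
  obtain ⟨j0, hj0⟩ := hB
  have hpi := Real.pi_pos
  have ha1 : ∀ i ∈ A, 0 < Real.cos (θ i - t) := by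
    intro i hi
    have h1 := h.hA i hi
    have h2 := h.hB j0 hj0
    have h3 := h.hpi j0 i
    exact Real.cos_pos_of_mem_Ioo ⟨by linarith, by linarith⟩
  have ha2 : ∀ i ∈ A, Real.sin (θ i - t) ≤ 0 := by
    intro i hi
    have h1 := h.hA i hi
    have h2 := h.hB j0 hj0
    have h3 := h.hpi j0 i
    exact Real.sin_nonpos_of_nonpos_of_neg_pi_le (by linarith) (by linarith)
  have hb1 : ∀ j ∈ B, 0 < Real.sin (θ j - t) := by
    intro j hj
    have h1 := h.hA i0 hi0
    have h2 := h.hB j hj
    have h3 := h.hpi j i0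
    exact Real.sin_pos_of_pos_of_lt_pi (by linarith) (by linarith)
  have hb2 : ∀ j ∈ B, Real.cos (θ j - t) ≤ 0 := by
    intro j hj
    have h1 := h.hA i0 hi0
    have h2 := h.hB j hj
    have h3 := h.hpi j i0
    exact Real.cos_nonpos_of_pi_div_two_le_of_le (by linarith) (by linarith)
  refine ⟨?_, ?_, ?_⟩
  · have h1 : 0 < S1 θ r A t := by
      unfold S1
      apply Finset.sum_pos
      · intro i hi
        have := mul_pos (h.rpos i) (ha1 i hi)
        unfold pp; positivity
      · exact ⟨i0, hi0⟩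
    have h2 : 0 ≤ S1 θ r B t := by
      unfold S1
      exact Finset.sum_nonneg fun i _ => sq_nonneg _
    linarith
  · have h1 : 0 < S2 θ r B t := by
      unfold S2
      apply Finset.sum_pos
      · intro i hi
        have := mul_pos (h.rpos i) (hb1 i hi)
        unfold qq; positivity
      · exact ⟨j0, hj0⟩
    have h2 : 0 ≤ S2 θ r A t := by
      unfold S2
      exact Finset.sum_nonneg fun i _ => sq_nonneg _
    linarith
  · have hta : ∀ i ∈ A, pp θ r t i * qq θ r t i ≤ 0 := by
      intro i hi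
      have h1 := mul_pos (h.rpos i) (ha1 i hi)
      have h2 := mul_nonpos_of_nonneg_of_nonpos (h.rpos i).le (ha2 i hi)
      exact mul_nonpos_of_nonneg_of_nonpos h1.le h2
    have htb : ∀ i ∈ B, pp θ r t i * qq θ r t i ≤ 0 := by
      intro i hi
      have h1 := mul_pos (h.rpos i) (hb1 i hi)
      have h2 := mul_nonpos_of_nonneg_of_nonpos (h.rpos i).le (hb2 i hi)
      exact mul_nonpos_of_nonpos_of_nonneg h2 h1.le
    have hsa : S3 θ r A t ≤ 0 := Finset.sum_nonpos hta
    have hsb : S3 θ r B t ≤ 0 := Finset.sum_nonpos htb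
    rcases eq_or_lt_of_le (h.hA i0 hi0) with heq | hlt
    · -- θ i0 = t
      have h4 := h.horth j0 i0
      have h5 := h.hB j0 hj0
      have h6 : t + Real.pi / 2 < θ j0 := by
        apply lt_of_le_of_ne h5
        intro hh
        exact h4 (by rw [← hh, heq])
      have h7 : Real.cos (θ j0 - t) < 0 := by
        have h3 := h.hpi j0 i0
        exact Real.cos_neg_of_pi_div_two_lt_of_lt (by linarith) (by linarith)
      have h8 : S3 θ r B t < 0 := by
        unfold S3
        apply Finset.sum_neg' htb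
        refine ⟨j0, hj0, ?_⟩
        exact mul_neg_of_neg_of_pos (mul_neg_of_pos_of_neg (h.rpos j0) h7)
          (mul_pos (h.rpos j0) (hb1 j0 hj0))
      linarith
    · have h7 : Real.sin (θ i0 - t) < 0 := by
        have h2 := h.hB j0 hj0
        have h3 := h.hpi j0 i0
        exact Real.sin_neg_of_neg_of_neg_pi_lt (by linarith) (by linarith)
      have h8 : S3 θ r A t < 0 := by
        unfold S3
        apply Finset.sum_neg' hta
        refine ⟨i0, hi0, ?_⟩
        exact mul_neg_of_pos_of_neg (mul_pos (h.rpos i0) (ha1 i0 hi0))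
          (mul_neg_of_pos_of_neg (h.rpos i0) h7)
      linarith


end SSignX

alias S_sign := SSignX.S_sign

end Pool.Agent.Helper255.BN
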