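import Pool.Agent.Helper255.BN.Defs

set_option autoImplicit false

open Finset


namespace Pool.Agent.Helper255.BN

namespace ThetaX


theorem theta_nonneg_signs {ι : Type*} [Fintype ι] [DecidableEq ι] (θ r : ι → ℝ)
    (A W B : Finset ι) (t : ℝ) (h : Inv θ r A W B t) (i j : ι) (hi : i ∈ A) (hj : j ∈ B) :
    0 ≤ pp θ r t i ∧ pp θ r t j ≤ 0 ∧ qq θ r t i ≤ 0 ∧ 0 ≤ qq θ r t j ∧
    0 ≤ pp θ r t i * qq θ r t j - qq θ r t i * pp θ r t j := by
  have h1 := h.hA i hi
  have h2 := h.hB j hj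
  have h3 := h.hpi j i
  have hri := h.rpos i
  have hrj := h.rpos j
  have hpi := Real.pi_pos
  have c1 : 0 ≤ Real.cos (θ i - t) :=
    Real.cos_nonneg_of_neg_pi_div_two_le_of_le (by linarith) (by linarith)
  have c2 : Real.cos (θ j - t) ≤ 0 :=
    Real.cos_nonpos_of_pi_div_two_le_of_le (by linarith) (by linarith)
  have c3 : Real.sin (θ i - t) ≤ 0 :=
    Real.sin_nonpos_of_nonpos_of_neg_pi_le (by linarith) (by linarith)
  have c4 : 0 ≤ Real.sin (θ j - t) :=
    Real.sin_nonneg_of_nonneg_of_le_pi (by linarith) (by linarith)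
  have c5 : 0 ≤ Real.sin (θ j - θ i) :=
    Real.sin_nonneg_of_nonneg_of_le_pi (by linarith) (by linarith)
  refine ⟨mul_nonneg hri.le c1, mul_nonpos_of_nonneg_of_nonpos hrj.le c2,
    mul_nonpos_of_nonneg_of_nonpos hri.le c3, mul_nonneg hrj.le c4, ?_⟩
  have e : pp θ r t i * qq θ r t j - qq θ r t i * pp θ r t j
      = (r i * r j) * Real.sin (θ j - θ i) := by
    have : θ j - θ i = (θ j - t) - (θ i - t) := by ring
    rw [this, Real.sin_sub]
    simp only [pp, qq]
    ring
  rw [e]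
  positivity

theorem theta_nonneg {ι : Type*} [Fintype ι] [DecidableEq ι] (θ r : ι → ℝ) (A W B : Finset ι) (t : ℝ)
    (h : Inv θ r A W B t) :
    0 ≤ S3 θ r A t * S1 θ r B t - S1 θ r A t * S3 θ r B t ∧
    0 ≤ S2 θ r A t * S3 θ r B t - S3 θ r A t * S2 θ r B t := by
  constructor
  · simp only [S3, S1]
    rw [Finset.sum_mul_sum, Finset.sum_mul_sum, ← Finset.sum_sub_distrib]
    refine Finset.sum_nonneg fun i hi => ?_
    rw [← Finset.sum_sub_distrib]
    refine Finset.sum_nonneg fun j hj => ?_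
    obtain ⟨a1, a2, a3, a4, a5⟩ := theta_nonneg_signs θ r A W B t h i j hi hj
    have e : pp θ r t i * qq θ r t i * pp θ r t j ^ 2 -
        pp θ r t i ^ 2 * (pp θ r t j * qq θ r t j)
        = (pp θ r t i * (-pp θ r t j)) *
          (pp θ r t i * qq θ r t j - qq θ r t i * pp θ r t j) := by ring
    rw [e]
    exact mul_nonneg (mul_nonneg a1 (by linarith)) a5
  · simp only [S3, S2]
    rw [Finset.sum_mul_sum, Finset.sum_mul_sum, ← Finset.sum_sub_distrib]
    refine Finset.sum_nonneg fun i hi => ?_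
    rw [← Finset.sum_sub_distrib]
    refine Finset.sum_nonneg fun j hj => ?_
    obtain ⟨a1, a2, a3, a4, a5⟩ := theta_nonneg_signs θ r A W B t h i j hi hj
    have e : qq θ r t i ^ 2 * (pp θ r t j * qq θ r t j) -
        pp θ r t i * qq θ r t i * qq θ r t j ^ 2
        = ((-qq θ r t i) * qq θ r t j) *
          (pp θ r t i * qq θ r t j - qq θ r t i * pp θ r t j) := by ring
    rw [e]
    exact mul_nonneg (mul_nonneg (by linarith) a4) a5


end ThetaX

alias theta_nonneg := ThetaX.theta_nonneg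

end Pool.Agent.Helper255.BN
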