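import Pool.Agent.Helper255.BN.Defs
import Pool.Agent.Helper255.BN.Deriv
import Pool.Agent.Helper255.BN.SSign
import Pool.Agent.Helper255.BN.Theta

set_option autoImplicit false

open Finset


namespace Pool.Agent.Helper255.BN

namespace PieceX


theorem inv_mid {ι : Type*} [Fintype ι] [DecidableEq ι] (θ r : ι → ℝ) (A W B : Finset ι) (s t x : ℝ)
    (hs : Inv θ r A W B s) (ht : Inv θ r A W B t) (hsx : s ≤ x) (hxt : x ≤ t) :
    Inv θ r A W B x where
  rpos := hs.rpos
  dAW := hs.dAW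
  dAB := hs.dAB
  dWB := hs.dWB
  cover := hs.cover
  hA := fun i hi => (hs.hA i hi).trans hsx
  hW := fun i hi => ⟨hxt.trans (ht.hW i hi).1, by linarith [(hs.hW i hi).2]⟩
  hB := fun i hi => by linarith [ht.hB i hi]
  hpi := hs.hpi
  horth := hs.horth

noncomputable def gg1 {ι : Type*} [DecidableEq ι] (θ r : ι → ℝ) (A B : Finset ι) (x : ℝ) (i : ι) : ℝ :=
  if i ∈ A ∨ i ∈ B then 0 else
    (pp θ r x i ^ 2 / (S1 θ r A x + S1 θ r B x) - pp θ r x i * qq θ r x i / (S3 θ r A x + S3 θ r B x))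

noncomputable def gg2 {ι : Type*} [DecidableEq ι] (θ r : ι → ℝ) (A B : Finset ι) (x : ℝ) (i : ι) : ℝ :=
  if i ∈ A ∨ i ∈ B then 0 else
    (qq θ r x i ^ 2 / (S2 θ r A x + S2 θ r B x) - pp θ r x i * qq θ r x i / (S3 θ r A x + S3 θ r B x))

theorem hasDerivAt_Ct {ι : Type*} [Fintype ι] [DecidableEq ι] (θ r : ι → ℝ) (A B : Finset ι) (x : ℝ)
    (i j : ι)
    (h1 : S1 θ r A x + S1 θ r B x ≠ 0) (h2 : S2 θ r A x + S2 θ r B x ≠ 0)
    (h3 : S3 θ r A x + S3 θ r B x ≠ 0) :
    HasDerivAt (fun s => Ct θ r A B s i j)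
      (2 * (S3 θ r A x * S1 θ r B x - S1 θ r A x * S3 θ r B x)
          * (gg1 θ r A B x i * gg1 θ r A B x j)
        + 2 * (S2 θ r A x * S3 θ r B x - S3 θ r A x * S2 θ r B x)
          * (gg2 θ r A B x i * gg2 θ r A B x j)) x := by
  by_cases hB : i ∈ B ∨ j ∈ B
  · have e1 : (fun s => Ct θ r A B s i j) = fun _ => (0 : ℝ) := by
      funext s
      unfold Ct
      rw [if_pos hB]
    have z1 : gg1 θ r A B x i * gg1 θ r A B x j = 0 := by
      unfold gg1
      rcases hB with h | h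
      · rw [if_pos (Or.inr h), zero_mul]
      · rw [if_pos (Or.inr h : j ∈ A ∨ j ∈ B), mul_zero]
    have z2 : gg2 θ r A B x i * gg2 θ r A B x j = 0 := by
      unfold gg2
      rcases hB with h | h
      · rw [if_pos (Or.inr h), zero_mul]
      · rw [if_pos (Or.inr h : j ∈ A ∨ j ∈ B), mul_zero]
    rw [e1, z1, z2, mul_zero, mul_zero, add_zero]
    exact hasDerivAt_const x (0 : ℝ)
  · by_cases hA : i ∈ A ∨ j ∈ A
    · have e1 : (fun s => Ct θ r A B s i j)
          = fun _ => cp θ r i j + (if i = j then ∑ k, cm θ r i k else 0) := by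
        funext s
        unfold Ct
        rw [if_neg hB, if_pos hA]
      have z1 : gg1 θ r A B x i * gg1 θ r A B x j = 0 := by
        unfold gg1
        rcases hA with h | h
        · rw [if_pos (Or.inl h), zero_mul]
        · rw [if_pos (Or.inl h : j ∈ A ∨ j ∈ B), mul_zero]
      have z2 : gg2 θ r A B x i * gg2 θ r A B x j = 0 := by
        unfold gg2
        rcases hA with h | h
        · rw [if_pos (Or.inl h), zero_mul]
        · rw [if_pos (Or.inl h : j ∈ A ∨ j ∈ B), mul_zero]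
      rw [e1, z1, z2, mul_zero, mul_zero, add_zero]
      exact hasDerivAt_const x _
    · have e1 : (fun s => Ct θ r A B s i j)
          = fun s => Gk θ r A B s i j + (if i = j then ∑ k ∈ A, cm θ r i k else 0) := by
        funext s
        unfold Ct
        rw [if_neg hB, if_neg hA]
      have ni : ¬ (i ∈ A ∨ i ∈ B) := by
        rintro (h | h)
        · exact hA (Or.inl h)
        · exact hB (Or.inl h)
      have nj : ¬ (j ∈ A ∨ j ∈ B) := by
        rintro (h | h)
        · exact hA (Or.inr h)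
        · exact hB (Or.inr h)
      rw [e1]
      unfold gg1 gg2
      rw [if_neg ni, if_neg nj, if_neg ni, if_neg nj]
      exact (hasDerivAt_Gk θ r A B x i j h1 h2 h3).add_const _

theorem hasDerivAt_NN {ι : Type*} [Fintype ι] [DecidableEq ι] (θ r : ι → ℝ) (c : ℝ) (e : ι → ι → ℝ)
    (A B : Finset ι) (x : ℝ)
    (h1 : S1 θ r A x + S1 θ r B x ≠ 0) (h2 : S2 θ r A x + S2 θ r B x ≠ 0)
    (h3 : S3 θ r A x + S3 θ r B x ≠ 0) :
    HasDerivAt (fun s => NN c e (Ct θ r A B s))
      (2 * (S3 θ r A x * S1 θ r B x - S1 θ r A x * S3 θ r B x)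
          * NN c e (fun i j => gg1 θ r A B x i * gg1 θ r A B x j)
        + 2 * (S2 θ r A x * S3 θ r B x - S3 θ r A x * S2 θ r B x)
          * NN c e (fun i j => gg2 θ r A B x i * gg2 θ r A B x j)) x := by
  have key : HasDerivAt (fun s => ∑ i, ∑ j, (c - e i j) * Ct θ r A B s i j)
      (∑ i, ∑ j, (c - e i j) * (2 * (S3 θ r A x * S1 θ r B x - S1 θ r A x * S3 θ r B x)
          * (gg1 θ r A B x i * gg1 θ r A B x j)
        + 2 * (S2 θ r A x * S3 θ r B x - S3 θ r A x * S2 θ r B x)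
          * (gg2 θ r A B x i * gg2 θ r A B x j))) x := by
    refine HasDerivAt.fun_sum fun i _ => HasDerivAt.fun_sum fun j _ => ?_
    exact (hasDerivAt_Ct θ r A B x i j h1 h2 h3).const_mul _
  have e2 : (∑ i, ∑ j, (c - e i j) * (2 * (S3 θ r A x * S1 θ r B x - S1 θ r A x * S3 θ r B x)
          * (gg1 θ r A B x i * gg1 θ r A B x j)
        + 2 * (S2 θ r A x * S3 θ r B x - S3 θ r A x * S2 θ r B x)
          * (gg2 θ r A B x i * gg2 θ r A B x j)))
      = (2 * (S3 θ r A x * S1 θ r B x - S1 θ r A x * S3 θ r B x)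
          * NN c e (fun i j => gg1 θ r A B x i * gg1 θ r A B x j)
        + 2 * (S2 θ r A x * S3 θ r B x - S3 θ r A x * S2 θ r B x)
          * NN c e (fun i j => gg2 θ r A B x i * gg2 θ r A B x j)) := by
    unfold NN
    rw [Finset.mul_sum, Finset.mul_sum, ← Finset.sum_add_distrib]
    refine Finset.sum_congr rfl fun i _ => ?_
    rw [Finset.mul_sum, Finset.mul_sum, ← Finset.sum_add_distrib]
    refine Finset.sum_congr rfl fun j _ => ?_
    ring
  rw [e2] at key
  exact key

theorem gg_nonneg {ι : Type*} [Fintype ι] [DecidableEq ι] (θ r : ι → ℝ) (A W B : Finset ι) (x : ℝ)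
    (h : Inv θ r A W B x) (hA : A.Nonempty) (hB : B.Nonempty) (i : ι) :
    0 ≤ gg1 θ r A B x i ∧ 0 ≤ gg2 θ r A B x i := by
  obtain ⟨p1, p2, p3⟩ := S_sign θ r A W B x h hA hB
  unfold gg1 gg2
  by_cases hi : i ∈ A ∨ i ∈ B
  · rw [if_pos hi, if_pos hi]
    exact ⟨le_rfl, le_rfl⟩
  · rw [if_neg hi, if_neg hi]
    have hiW : i ∈ W := by
      rcases h.cover i with h1 | h1 | h1
      · exact absurd (Or.inl h1) hi
      · exact h1
      · exact absurd (Or.inr h1) hi
    have hw := h.hW i hiW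
    have hpi := Real.pi_pos
    have hp : 0 ≤ pp θ r x i := by
      unfold pp
      exact mul_nonneg (h.rpos i).le (Real.cos_nonneg_of_mem_Icc ⟨by linarith [hw.1], by linarith [hw.2]⟩)
    have hq : 0 ≤ qq θ r x i := by
      unfold qq
      exact mul_nonneg (h.rpos i).le (Real.sin_nonneg_of_nonneg_of_le_pi (by linarith [hw.1]) (by linarith [hw.2]))
    have hpq : pp θ r x i * qq θ r x i / (S3 θ r A x + S3 θ r B x) ≤ 0 :=
      div_nonpos_of_nonneg_of_nonpos (mul_nonneg hp hq) p3.le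
    have a1 : 0 ≤ pp θ r x i ^ 2 / (S1 θ r A x + S1 θ r B x) := div_nonneg (sq_nonneg _) p1.le
    have a2 : 0 ≤ qq θ r x i ^ 2 / (S2 θ r A x + S2 θ r B x) := div_nonneg (sq_nonneg _) p2.le
    exact ⟨by linarith, by linarith⟩

/-- monotonicity between two events -/
theorem piece {ι : Type*} [Fintype ι] [DecidableEq ι] (θ r : ι → ℝ) (c : ℝ) (e : ι → ι → ℝ)
    (hMS : ∀ f : ι → ℝ, (∀ i, 0 ≤ f i) → 0 ≤ NN c e (fun i j => f i * f j))
    (A W B : Finset ι) (s t : ℝ) (hs : Inv θ r A W B s) (ht : Inv θ r A W B t) (hst : s ≤ t)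
    (hA : A.Nonempty) (hB : B.Nonempty) :
    NN c e (Ct θ r A B s) ≤ NN c e (Ct θ r A B t) := by
  have hd : ∀ x ∈ Set.Icc s t, HasDerivAt (fun s => NN c e (Ct θ r A B s))
      (2 * (S3 θ r A x * S1 θ r B x - S1 θ r A x * S3 θ r B x)
          * NN c e (fun i j => gg1 θ r A B x i * gg1 θ r A B x j)
        + 2 * (S2 θ r A x * S3 θ r B x - S3 θ r A x * S2 θ r B x)
          * NN c e (fun i j => gg2 θ r A B x i * gg2 θ r A B x j)) x := by
    intro x hx
    have hinv := inv_mid θ r A W B s t x hs ht hx.1 hx.2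
    obtain ⟨p1, p2, p3⟩ := S_sign θ r A W B x hinv hA hB
    exact hasDerivAt_NN θ r c e A B x p1.ne' p2.ne' p3.ne
  have hmono : MonotoneOn (fun s => NN c e (Ct θ r A B s)) (Set.Icc s t) := by
    refine monotoneOn_of_deriv_nonneg (convex_Icc s t) ?_ ?_ ?_
    · intro x hx
      exact (hd x hx).continuousAt.continuousWithinAt
    · intro x hx
      exact (hd x (interior_subset hx)).differentiableAt.differentiableWithinAt
    · intro x hx
      have hx' := interior_subset hx
      rw [(hd x hx').deriv]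
      have hinv := inv_mid θ r A W B s t x hs ht hx'.1 hx'.2
      obtain ⟨t1, t2⟩ := theta_nonneg θ r A W B x hinv
      have m1 := hMS (gg1 θ r A B x) (fun i => (gg_nonneg θ r A W B x hinv hA hB i).1)
      have m2 := hMS (gg2 θ r A B x) (fun i => (gg_nonneg θ r A W B x hinv hA hB i).2)
      have k1 := mul_nonneg (mul_nonneg (zero_le_two (α := ℝ)) t1) m1
      have k2 := mul_nonneg (mul_nonneg (zero_le_two (α := ℝ)) t2) m2
      exact add_nonneg k1 k2
  exact hmono (Set.left_mem_Icc.mpr hst) (Set.right_mem_Icc.mpr hst) hst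


end PieceX

alias piece := PieceX.piece

end Pool.Agent.Helper255.BN
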