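import Pool.Agent.Helper255.BN.Defs
import Pool.Agent.Helper255.BN.Exit
import Pool.Agent.Helper255.BN.Entry
import Pool.Agent.Helper255.BN.Piece
import Pool.Agent.Helper255.BN.Ends

set_option autoImplicit false

open Finset


namespace Pool.Agent.Helper255.BN

namespace MainX


theorem NN_step {ι : Type*} [Fintype ι] (c : ℝ) (e T T' : ι → ι → ℝ)
    (hMS : ∀ f : ι → ℝ, (∀ i, 0 ≤ f i) → 0 ≤ NN c e (fun i j => f i * f j))
    (h : ∃ f : ι → ℝ, (∀ i, 0 ≤ f i) ∧ ∀ i j, T' i j - T i j = f i * f j) :
    NN c e T ≤ NN c e T' := by
  obtain ⟨f, hf, hff⟩ := h
  have h1 := hMS f hf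
  have h2 : NN c e T' = NN c e T + NN c e (fun i j => f i * f j) := by
    unfold NN
    rw [← Finset.sum_add_distrib]
    refine Finset.sum_congr rfl fun i _ => ?_
    rw [← Finset.sum_add_distrib]
    refine Finset.sum_congr rfl fun j _ => ?_
    have := hff i j
    have h3 : T' i j = T i j + f i * f j := by linarith
    rw [h3]; ring
  linarith

theorem main_induction {ι : Type*} [Fintype ι] [DecidableEq ι] (θ r : ι → ℝ) (c : ℝ) (e : ι → ι → ℝ) (he : ∀ i, e i i = 0)
    (hMS : ∀ f : ι → ℝ, (∀ i, 0 ≤ f i) → 0 ≤ NN c e (fun i j => f i * f j)) :
    ∀ (n : ℕ) (A W B : Finset ι) (t : ℝ), W.card + 2 * B.card = n → Inv θ r A W B t → A.Nonempty → B.Nonempty →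
      NN c e (Ct θ r A B t) ≤ FF θ r c e := by
  intro n
  induction n using Nat.strong_induction_on with
  | _ n ih =>
  intro A W B t hn h hA hB
  have hpi : 0 < Real.pi := Real.pi_pos
  -- next event
  set E : Finset ℝ := W.image θ ∪ B.image (fun j => θ j - Real.pi / 2) with hE
  have hEne : E.Nonempty := by
    obtain ⟨b, hb⟩ := hB
    exact ⟨θ b - Real.pi / 2, by
      rw [hE, Finset.mem_union]; right; exact Finset.mem_image_of_mem _ hb⟩
  set t' := E.min' hEne with ht'
  have hmem : t' ∈ E := Finset.min'_mem _ _
  have hWle : ∀ i ∈ W, t' ≤ θ i := fun i hi =>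
    Finset.min'_le _ _ (by rw [hE, Finset.mem_union]; left; exact Finset.mem_image_of_mem _ hi)
  have hBle : ∀ i ∈ B, t' ≤ θ i - Real.pi / 2 := fun i hi =>
    Finset.min'_le _ _ (by
      rw [hE, Finset.mem_union]; right
      exact Finset.mem_image_of_mem (fun j => θ j - Real.pi / 2) hi)
  have htt' : t ≤ t' := by
    rw [hE, Finset.mem_union, Finset.mem_image, Finset.mem_image] at hmem
    rcases hmem with ⟨i, hi, hi2⟩ | ⟨i, hi, hi2⟩
    · rw [← hi2]; exact (h.hW i hi).1
    · rw [← hi2]; have := h.hB i hi; linarith
  have h' : Inv θ r A W B t' :=
    { rpos := h.rpos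
      dAW := h.dAW
      dAB := h.dAB
      dWB := h.dWB
      cover := h.cover
      hA := fun i hi => (h.hA i hi).trans htt'
      hW := fun i hi => ⟨hWle i hi, by have := (h.hW i hi).2; linarith⟩
      hB := fun i hi => by have := hBle i hi; linarith
      hpi := h.hpi
      horth := h.horth }
  have hpiece := piece θ r c e hMS A W B t t' h h' htt' hA hB
  refine hpiece.trans ?_
  rw [hE, Finset.mem_union, Finset.mem_image, Finset.mem_image] at hmem
  rcases hmem with ⟨k, hk, hkt⟩ | ⟨u, hu, hut⟩
  · -- exit
    have hstep := NN_step c e _ _ hMS (exit_step θ r A W B t' h' k hk hkt hB)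
    refine hstep.trans ?_
    have hkA : k ∉ A := fun hh => Finset.disjoint_left.mp h.dAW hh hk
    have hkB : k ∉ B := fun hh => Finset.disjoint_left.mp h.dWB hk hh
    have hinv : Inv θ r (insert k A) (W.erase k) B t' :=
      { rpos := h.rpos
        dAW := by
          rw [Finset.disjoint_left]
          intro a ha hb
          rw [Finset.mem_erase] at hb
          rw [Finset.mem_insert] at ha
          rcases ha with ha | ha
          · exact hb.1 ha
          · exact Finset.disjoint_left.mp h.dAW ha hb.2
        dAB := by
          rw [Finset.disjoint_left]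
          intro a ha hb
          rw [Finset.mem_insert] at ha
          rcases ha with ha | ha
          · exact hkB (ha ▸ hb)
          · exact Finset.disjoint_left.mp h.dAB ha hb
        dWB := by
          rw [Finset.disjoint_left]
          intro a ha hb
          rw [Finset.mem_erase] at ha
          exact Finset.disjoint_left.mp h.dWB ha.2 hb
        cover := fun i => by
          by_cases hik : i = k
          · left; rw [hik]; exact Finset.mem_insert_self _ _
          · rcases h.cover i with h1 | h1 | h1
            · left; exact Finset.mem_insert_of_mem h1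
            · right; left; exact Finset.mem_erase.mpr ⟨hik, h1⟩
            · right; right; exact h1
        hA := fun i hi => by
          rw [Finset.mem_insert] at hi
          rcases hi with hi | hi
          · rw [hi, hkt]
          · exact h'.hA i hi
        hW := fun i hi => h'.hW i (Finset.mem_of_mem_erase hi)
        hB := h'.hB
        hpi := h.hpi
        horth := h.horth }
    have hcard : (W.erase k).card + 2 * B.card < n := by
      have := Finset.card_erase_lt_of_mem hk
      omega
    exact ih _ hcard (insert k A) (W.erase k) B t' rfl hinv (Finset.insert_nonempty _ _) hB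
  · -- entry
    have hut' : θ u = t' + Real.pi / 2 := by linarith
    have hstep := NN_step c e _ _ hMS (entry_step θ r A W B t' h' u hu hut' hA)
    refine hstep.trans ?_
    have huA : u ∉ A := fun hh => Finset.disjoint_left.mp h.dAB hh hu
    have huW : u ∉ W := fun hh => Finset.disjoint_left.mp h.dWB hh hu
    have hinv : Inv θ r A (insert u W) (B.erase u) t' :=
      { rpos := h.rpos
        dAW := by
          rw [Finset.disjoint_left]
          intro a ha hb
          rw [Finset.mem_insert] at hb
          rcases hb with hb | hb
          · exact huA (hb ▸ ha)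
          · exact Finset.disjoint_left.mp h.dAW ha hb
        dAB := by
          rw [Finset.disjoint_left]
          intro a ha hb
          exact Finset.disjoint_left.mp h.dAB ha (Finset.mem_of_mem_erase hb)
        dWB := by
          rw [Finset.disjoint_left]
          intro a ha hb
          rw [Finset.mem_erase] at hb
          rw [Finset.mem_insert] at ha
          rcases ha with ha | ha
          · exact hb.1 ha
          · exact Finset.disjoint_left.mp h.dWB ha hb.2
        cover := fun i => by
          by_cases hik : i = u
          · right; left; rw [hik]; exact Finset.mem_insert_self _ _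
          · rcases h.cover i with h1 | h1 | h1
            · left; exact h1
            · right; left; exact Finset.mem_insert_of_mem h1
            · right; right; exact Finset.mem_erase.mpr ⟨hik, h1⟩
        hA := h'.hA
        hW := fun i hi => by
          rw [Finset.mem_insert] at hi
          rcases hi with hi | hi
          · rw [hi, hut']; constructor <;> linarith
          · exact h'.hW i hi
        hB := fun i hi => h'.hB i (Finset.mem_of_mem_erase hi)
        hpi := h.hpi
        horth := h.horth }
    rcases Finset.eq_empty_or_nonempty (B.erase u) with hBe | hBe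
    · rw [hBe] at hinv ⊢
      exact (Ct_end θ r c e he A (insert u W) t' hinv hA u hut').le
    · have hcard : (insert u W).card + 2 * (B.erase u).card < n := by
        have h1 := Finset.card_erase_lt_of_mem hu
        have h2 := Finset.card_insert_of_notMem huW
        omega
      exact ih _ hcard A (insert u W) (B.erase u) t' rfl hinv hA hBe


end MainX

alias main_induction := MainX.main_induction

end Pool.Agent.Helper255.BN
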