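import Pool.Agent.Helper255.BN.Defs
import Pool.Agent.Helper255.BN.Main
import Pool.Agent.Helper255.BN.Acute

set_option autoImplicit false

open Finset


namespace Pool.Agent.Helper255.BN

namespace PolarX


theorem polar_generic {ι : Type*} [Fintype ι] [DecidableEq ι] (θ r : ι → ℝ) (c : ℝ) (e : ι → ι → ℝ) (he : ∀ i, e i i = 0)
    (hMS : ∀ f : ι → ℝ, (∀ i, 0 ≤ f i) → 0 ≤ NN c e (fun i j => f i * f j))
    (hr : ∀ i, 0 < r i) (hpi : ∀ i j, θ i - θ j < Real.pi) (horth : ∀ i j, θ i ≠ θ j + Real.pi / 2) :
    0 ≤ FF θ r c e := by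
  by_cases h : ∀ i j, θ i - θ j ≤ Real.pi / 2
  · exact acute_case θ r c e hMS hr h
  push Not at h
  obtain ⟨i0, j0, hij⟩ := h
  haveI : Nonempty ι := ⟨i0⟩
  obtain ⟨k0, hk0⟩ := Finite.exists_min θ
  set t : ℝ := θ k0 with ht
  let W : Finset ι := univ.filter (fun i => θ i ≤ t + Real.pi / 2)
  let B : Finset ι := univ.filter (fun i => t + Real.pi / 2 < θ i)
  have hWm : ∀ i, i ∈ W ↔ θ i ≤ t + Real.pi / 2 := fun i => by simp [W]
  have hBm : ∀ i, i ∈ B ↔ t + Real.pi / 2 < θ i := fun i => by simp [B]
  have hBne : B.Nonempty := ⟨i0, by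
    rw [hBm]
    have := hk0 j0
    linarith⟩
  have hkW : k0 ∈ W := by
    rw [hWm]
    have := Real.pi_pos
    linarith
  have hkB : k0 ∉ B := by
    rw [hBm]
    have := Real.pi_pos
    linarith
  have hdWB : Disjoint W B := by
    rw [Finset.disjoint_left]
    intro i hi hi'
    rw [hWm] at hi
    rw [hBm] at hi'
    linarith
  have hinv : Inv θ r ∅ W B t :=
    { rpos := hr
      dAW := Finset.disjoint_empty_left _
      dAB := Finset.disjoint_empty_left _
      dWB := hdWB
      cover := fun i => by
        rcases le_or_gt (θ i) (t + Real.pi / 2) with h1 | h1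
        · exact Or.inr (Or.inl ((hWm i).mpr h1))
        · exact Or.inr (Or.inr ((hBm i).mpr h1))
      hA := fun i hi => absurd hi (Finset.notMem_empty i)
      hW := fun i hi => ⟨hk0 i, (hWm i).mp hi⟩
      hB := fun i hi => ((hBm i).mp hi).le
      hpi := hpi
      horth := horth }
  have hinv' : Inv θ r (insert k0 ∅) (W.erase k0) B t :=
    { rpos := hr
      dAW := by
        rw [Finset.disjoint_left]
        intro i hi hi'
        rw [Finset.mem_insert] at hi
        rcases hi with rfl | hi
        · exact Finset.notMem_erase _ _ hi'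
        · exact Finset.notMem_empty _ hi
      dAB := by
        rw [Finset.disjoint_left]
        intro i hi hi'
        rw [Finset.mem_insert] at hi
        rcases hi with rfl | hi
        · exact hkB hi'
        · exact Finset.notMem_empty _ hi
      dWB := Finset.disjoint_of_subset_left (Finset.erase_subset _ _) hdWB
      cover := fun i => by
        by_cases hik : i = k0
        · exact Or.inl (by rw [hik]; exact Finset.mem_insert_self _ _)
        · rcases le_or_gt (θ i) (t + Real.pi / 2) with h1 | h1
          · exact Or.inr (Or.inl (Finset.mem_erase.mpr ⟨hik, (hWm i).mpr h1⟩))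
          · exact Or.inr (Or.inr ((hBm i).mpr h1))
      hA := fun i hi => by
        rw [Finset.mem_insert] at hi
        rcases hi with rfl | hi
        · exact le_rfl
        · exact absurd hi (Finset.notMem_empty i)
      hW := fun i hi => ⟨hk0 i, (hWm i).mp (Finset.mem_of_mem_erase hi)⟩
      hB := fun i hi => ((hBm i).mp hi).le
      hpi := hpi
      horth := horth }
  obtain ⟨f, hf0, hf⟩ := exit_step θ r ∅ W B t hinv k0 hkW rfl hBne
  have h1 : NN c e (Ct θ r (insert k0 ∅) B t) =
      NN c e (Ct θ r ∅ B t) + NN c e (fun i j => f i * f j) := by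
    unfold NN
    rw [← Finset.sum_add_distrib]
    refine Finset.sum_congr rfl fun i _ => ?_
    rw [← Finset.sum_add_distrib]
    refine Finset.sum_congr rfl fun j _ => ?_
    have := hf i j
    have h2 : Ct θ r (insert k0 ∅) B t i j = Ct θ r ∅ B t i j + f i * f j := by linarith
    rw [h2]
    ring
  have h2 := hMS f hf0
  have h3 := Ct_start θ r c e B t
  have h4 := main_induction θ r c e he hMS _ (insert k0 ∅) (W.erase k0) B t rfl hinv'
    (Finset.insert_nonempty _ _) hBne
  linarith


end PolarX

alias polar_generic := PolarX.polar_generic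

end Pool.Agent.Helper255.BN
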