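import Pool.Agent.Helper255.BN.Defs
import Pool.Agent.Helper255.BN.Polar

set_option autoImplicit false

open Finset


namespace Pool.Agent.Helper255.BN

namespace VecGenX


theorem vec_generic {ι : Type*} [Fintype ι] [DecidableEq ι] (x y : ι → ℝ) (c : ℝ) (e : ι → ι → ℝ) (he : ∀ i, e i i = 0)
    (hMS : ∀ f : ι → ℝ, (∀ i, 0 ≤ f i) → 0 ≤ NN c e (fun i j => f i * f j))
    (hx : ∀ i, 0 < x i) (horth : ∀ i j, x i * x j + y i * y j ≠ 0) :
    ∑ i, ∑ j, e i j * (max 0 (x i * x j + y i * y j)) ^ 2 ≤ c * ∑ i, ∑ j, (x i * x j + y i * y j) ^ 2 := by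
  have hr : ∀ i, Real.sqrt (x i ^ 2 + y i ^ 2) = x i * Real.sqrt (1 + (y i / x i) ^ 2) := by
    intro i
    have h1 : x i ^ 2 + y i ^ 2 = x i ^ 2 * (1 + (y i / x i) ^ 2) := by
      have := (hx i).ne'
      field_simp
    rw [h1, Real.sqrt_mul (sq_nonneg _), Real.sqrt_sq (hx i).le]
  have hs : ∀ i, 0 < Real.sqrt (1 + (y i / x i) ^ 2) := fun i => Real.sqrt_pos.2 (by positivity)
  have hcos : ∀ i, Real.sqrt (x i ^ 2 + y i ^ 2) * Real.cos (Real.arctan (y i / x i)) = x i := by
    intro i
    rw [hr, Real.cos_arctan]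
    have := (hs i).ne'
    field_simp
  have hsin : ∀ i, Real.sqrt (x i ^ 2 + y i ^ 2) * Real.sin (Real.arctan (y i / x i)) = y i := by
    intro i
    rw [hr, Real.sin_arctan]
    have := (hs i).ne'
    have := (hx i).ne'
    field_simp
  have hin : ∀ i j, Real.sqrt (x i ^ 2 + y i ^ 2) * Real.sqrt (x j ^ 2 + y j ^ 2) *
      Real.cos (Real.arctan (y i / x i) - Real.arctan (y j / x j)) = x i * x j + y i * y j := by
    intro i j
    rw [Real.cos_sub]
    calc _ = (Real.sqrt (x i ^ 2 + y i ^ 2) * Real.cos (Real.arctan (y i / x i))) *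
        (Real.sqrt (x j ^ 2 + y j ^ 2) * Real.cos (Real.arctan (y j / x j))) +
        (Real.sqrt (x i ^ 2 + y i ^ 2) * Real.sin (Real.arctan (y i / x i))) *
        (Real.sqrt (x j ^ 2 + y j ^ 2) * Real.sin (Real.arctan (y j / x j))) := by ring
      _ = _ := by rw [hcos, hcos, hsin, hsin]
  have h := polar_generic (fun i => Real.arctan (y i / x i))
    (fun i => Real.sqrt (x i ^ 2 + y i ^ 2)) c e he hMS
    (fun i => Real.sqrt_pos.2 (by have := hx i; positivity))
    (fun i j => by
      have h1 := Real.arctan_lt_pi_div_two (y i / x i)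
      have h2 := Real.neg_pi_div_two_lt_arctan (y j / x j)
      show Real.arctan (y i / x i) - Real.arctan (y j / x j) < Real.pi
      linarith)
    (fun i j hij => by
      have hij' : Real.arctan (y i / x i) = Real.arctan (y j / x j) + Real.pi / 2 := hij
      refine horth i j ?_
      rw [← hin i j, hij', add_sub_cancel_left, Real.cos_pi_div_two, mul_zero])
  unfold FF cp at h
  simp only [hin] at h
  linarith


end VecGenX

alias vec_generic := VecGenX.vec_generic

end Pool.Agent.Helper255.BN
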