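import Pool.Agent.Helper255.BN.Defs
import Pool.Agent.Helper255.BN.VecGen

set_option autoImplicit false

open Finset


namespace Pool.Agent.Helper255.BN

namespace VecAllX


theorem vec_all_ev {ι : Type*} (x y : ι → ℝ) (hx : ∀ i, 0 ≤ x i) (i j : ι) :
    ∀ᶠ s in nhdsWithin (0 : ℝ) (Set.Ioi 0), (x i + s) * (x j + s) + y i * y j ≠ 0 := by
  rcases lt_or_ge (x i * x j + y i * y j) 0 with h | h
  · have hc : Continuous (fun s : ℝ => (x i + s) * (x j + s) + y i * y j) := by fun_prop
    have h0 : (fun s : ℝ => (x i + s) * (x j + s) + y i * y j) 0 < 0 := by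
      simpa using h
    have h1 : ∀ᶠ s in nhds (0 : ℝ), (x i + s) * (x j + s) + y i * y j < 0 :=
      hc.continuousAt.eventually_lt continuousAt_const h0
    have h2 := h1.filter_mono (nhdsWithin_le_nhds (s := Set.Ioi (0 : ℝ)))
    filter_upwards [h2] with s hs
    exact hs.ne
  · filter_upwards [self_mem_nhdsWithin] with s hs
    have hs' : 0 < s := hs
    have hi := hx i
    have hj := hx j
    have : 0 < (x i + s) * (x j + s) + y i * y j := by
      have e : (x i + s) * (x j + s) + y i * y j =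
          (x i * x j + y i * y j) + x i * s + x j * s + s * s := by ring
      rw [e]
      positivity
    exact this.ne'

theorem vec_all {ι : Type*} [Fintype ι] [DecidableEq ι] (x y : ι → ℝ) (c : ℝ) (e : ι → ι → ℝ) (he : ∀ i, e i i = 0)
    (hMS : ∀ f : ι → ℝ, (∀ i, 0 ≤ f i) → 0 ≤ NN c e (fun i j => f i * f j))
    (hx : ∀ i, 0 ≤ x i) :
    ∑ i, ∑ j, e i j * (max 0 (x i * x j + y i * y j)) ^ 2 ≤ c * ∑ i, ∑ j, (x i * x j + y i * y j) ^ 2 := by
  have hL : Continuous (fun s : ℝ =>
      ∑ i, ∑ j, e i j * (max 0 ((x i + s) * (x j + s) + y i * y j)) ^ 2) := by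
    fun_prop
  have hR : Continuous (fun s : ℝ =>
      c * ∑ i, ∑ j, ((x i + s) * (x j + s) + y i * y j) ^ 2) := by
    fun_prop
  have hL' := (hL.tendsto 0).mono_left (nhdsWithin_le_nhds (s := Set.Ioi (0 : ℝ)))
  have hR' := (hR.tendsto 0).mono_left (nhdsWithin_le_nhds (s := Set.Ioi (0 : ℝ)))
  have hev : ∀ᶠ s in nhdsWithin (0 : ℝ) (Set.Ioi 0),
      ∀ i j, (x i + s) * (x j + s) + y i * y j ≠ 0 := by
    rw [Filter.eventually_all]
    intro i
    rw [Filter.eventually_all]
    intro j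
    exact vec_all_ev x y hx i j
  have hpos : ∀ᶠ s in nhdsWithin (0 : ℝ) (Set.Ioi 0), (0 : ℝ) < s := self_mem_nhdsWithin
  have hle : ∀ᶠ s in nhdsWithin (0 : ℝ) (Set.Ioi 0),
      ∑ i, ∑ j, e i j * (max 0 ((x i + s) * (x j + s) + y i * y j)) ^ 2 ≤
        c * ∑ i, ∑ j, ((x i + s) * (x j + s) + y i * y j) ^ 2 := by
    filter_upwards [hev, hpos] with s h1 h2
    exact vec_generic (fun i => x i + s) y c e he hMS (fun i => by have := hx i; positivity) h1
  have := le_of_tendsto_of_tendsto hL' hR' hle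
  simpa using this


end VecAllX

alias vec_all := VecAllX.vec_all

end Pool.Agent.Helper255.BN
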