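import Pool.Agent.Helper255.BN.Defs
import Pool.Agent.Helper255.BN.VecAll

set_option autoImplicit false

open Finset


namespace Pool.Agent.Helper255.BN

namespace PlanarX


theorem motzkin_straus_move {ι : Type*} [Fintype ι] [DecidableEq ι] (A : ι → ι → ℝ)
    (hA : ∀ i j, A i j = A j i) (a b : ι) (hab : A a b = 0) (haa : A a a = 0) (hbb : A b b = 0)
    (f δ : ι → ℝ) (hδ : ∀ g : ι → ℝ, ∑ i, δ i * g i = g a - g b) (t : ℝ) :
    ∑ i, ∑ j, A i j * ((f i + t * δ i) * (f j + t * δ j)) =
      ∑ i, ∑ j, A i j * (f i * f j) + 2 * t * (∑ j, A a j * f j - ∑ j, A b j * f j) := by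
  have hba : A b a = 0 := by rw [hA]; exact hab
  have inner : ∀ i, ∑ j, A i j * ((f i + t * δ i) * (f j + t * δ j)) =
      (f i + t * δ i) * (∑ j, A i j * f j + t * (A i a - A i b)) := by
    intro i
    rw [← hδ (fun j => A i j), mul_add, Finset.mul_sum, Finset.mul_sum, Finset.mul_sum,
      ← Finset.sum_add_distrib]
    refine Finset.sum_congr rfl fun j _ => ?_
    ring
  have e1 : ∑ i, ∑ j, A i j * (f i * f j) = ∑ i, f i * ∑ j, A i j * f j := by
    refine Finset.sum_congr rfl fun i _ => ?_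
    rw [Finset.mul_sum]
    refine Finset.sum_congr rfl fun j _ => ?_
    ring
  have e2 : ∑ i, f i * (A i a - A i b) = ∑ j, A a j * f j - ∑ j, A b j * f j := by
    rw [← Finset.sum_sub_distrib]
    refine Finset.sum_congr rfl fun i _ => ?_
    rw [hA i a, hA i b]
    ring
  have e3 : ∑ i, δ i * (∑ j, A i j * f j + t * (A i a - A i b)) =
      ∑ j, A a j * f j - ∑ j, A b j * f j := by
    rw [hδ (fun i => ∑ j, A i j * f j + t * (A i a - A i b)), haa, hab, hba, hbb]
    ring
  calc ∑ i, ∑ j, A i j * ((f i + t * δ i) * (f j + t * δ j))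
      = ∑ i, (f i + t * δ i) * (∑ j, A i j * f j + t * (A i a - A i b)) :=
        Finset.sum_congr rfl fun i _ => inner i
    _ = ∑ i, (f i * (∑ j, A i j * f j) + t * (f i * (A i a - A i b)) +
          t * (δ i * (∑ j, A i j * f j + t * (A i a - A i b)))) := by
        refine Finset.sum_congr rfl fun i _ => ?_
        ring
    _ = ∑ i, f i * (∑ j, A i j * f j) + t * (∑ j, A a j * f j - ∑ j, A b j * f j) +
          t * (∑ j, A a j * f j - ∑ j, A b j * f j) := by
        rw [Finset.sum_add_distrib, Finset.sum_add_distrib, ← Finset.mul_sum, ← Finset.mul_sum,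
          e2, e3]
    _ = _ := by
        rw [e1]
        ring

theorem motzkin_straus_ind {ι : Type*} [Fintype ι] [DecidableEq ι] (G : SimpleGraph ι)
    [DecidableRel G.Adj] (r : ℕ) (hr : 1 ≤ r) (hG : G.CliqueFree (r + 1)) :
    ∀ (m : ℕ) (f : ι → ℝ), (∀ i, 0 ≤ f i) → (univ.filter fun i => f i ≠ 0).card = m →
    ∑ i, ∑ j, (if G.Adj i j then (1 : ℝ) else 0) * (f i * f j) ≤
      (1 - 1 / (r : ℝ)) * (∑ i, f i) ^ 2 := by
  intro m
  induction m using Nat.strong_induction_on with
  | _ m ih =>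
  intro f hf hm
  have hr0 : (0 : ℝ) < (r : ℝ) := by exact_mod_cast hr
  by_cases hcl : ∀ a ∈ univ.filter (fun i => f i ≠ 0), ∀ b ∈ univ.filter (fun i => f i ≠ 0),
      a ≠ b → G.Adj a b
  · -- the support is a clique
    have hcard : (univ.filter fun i => f i ≠ 0).card ≤ r := by
      by_contra hcon
      push Not at hcon
      have h1 := hG.mono (show r + 1 ≤ (univ.filter fun i => f i ≠ 0).card by omega)
      apply h1 (univ.filter fun i => f i ≠ 0)
      refine ⟨?_, rfl⟩
      intro a ha b hb hab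
      exact hcl a (Finset.mem_coe.mp ha) b (Finset.mem_coe.mp hb) hab
    have h1 : ∑ i, ∑ j, (if G.Adj i j then (1 : ℝ) else 0) * (f i * f j) =
        (∑ i, f i) ^ 2 - ∑ i, f i ^ 2 := by
      rw [sq, Finset.sum_mul_sum, ← Finset.sum_sub_distrib]
      refine Finset.sum_congr rfl fun i _ => ?_
      have h2 : f i ^ 2 = ∑ j, (if i = j then (1 : ℝ) else 0) * (f i * f j) := by
        simp [sq]
      rw [h2, ← Finset.sum_sub_distrib]
      refine Finset.sum_congr rfl fun j _ => ?_
      by_cases hij : i = j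
      · subst hij
        simp
      · rw [if_neg hij]
        by_cases hi : f i = 0
        · rw [hi]; ring
        by_cases hj : f j = 0
        · rw [hj]; ring
        rw [if_pos (hcl i (by simp [hi]) j (by simp [hj]) hij)]
        ring
    have h2 : (∑ i, f i) ^ 2 ≤ r * ∑ i, f i ^ 2 := by
      have h3 : ∑ i, f i = ∑ i ∈ univ.filter (fun i => f i ≠ 0), f i := by
        rw [Finset.sum_filter_ne_zero]
      have h4 := sq_sum_le_card_mul_sum_sq (s := univ.filter fun i => f i ≠ 0) (f := f)
      rw [h3]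
      refine h4.trans ?_
      have h5 : ∑ i ∈ univ.filter (fun i => f i ≠ 0), f i ^ 2 ≤ ∑ i, f i ^ 2 :=
        Finset.sum_le_sum_of_subset_of_nonneg (Finset.filter_subset _ _)
          (fun i _ _ => sq_nonneg _)
      have h6 : ((univ.filter fun i => f i ≠ 0).card : ℝ) ≤ (r : ℝ) := by exact_mod_cast hcard
      exact mul_le_mul h6 h5 (Finset.sum_nonneg fun i _ => sq_nonneg _) hr0.le
    rw [h1]
    have h3 : (∑ i, f i) ^ 2 / r ≤ ∑ i, f i ^ 2 := by
      rw [div_le_iff₀ hr0]
      linarith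
    have h4 : (1 - 1 / (r : ℝ)) * (∑ i, f i) ^ 2 = (∑ i, f i) ^ 2 - (∑ i, f i) ^ 2 / r := by ring
    rw [h4]
    linarith
  · push Not at hcl
    obtain ⟨a', ha', b', hb', hab', hadj'⟩ := hcl
    -- choose the order
    obtain ⟨a, b, ha, hb, hab, hadj, hL⟩ : ∃ a b : ι, f a ≠ 0 ∧ f b ≠ 0 ∧ a ≠ b ∧ ¬ G.Adj a b ∧
        ∑ j, (if G.Adj b j then (1 : ℝ) else 0) * f j ≤
          ∑ j, (if G.Adj a j then (1 : ℝ) else 0) * f j := by
      have h1 := (Finset.mem_filter.mp ha').2
      have h2 := (Finset.mem_filter.mp hb').2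
      rcases le_total (∑ j, (if G.Adj b' j then (1 : ℝ) else 0) * f j)
        (∑ j, (if G.Adj a' j then (1 : ℝ) else 0) * f j) with h | h
      · exact ⟨a', b', h1, h2, hab', hadj', h⟩
      · exact ⟨b', a', h2, h1, hab'.symm, fun h3 => hadj' h3.symm, h⟩
    have hδ : ∀ g : ι → ℝ, ∑ i, ((if i = a then (1 : ℝ) else 0) - (if i = b then 1 else 0)) * g i =
        g a - g b := by
      intro g
      simp [sub_mul, Finset.sum_sub_distrib]
    have hmove := motzkin_straus_move (fun i j => if G.Adj i j then (1 : ℝ) else 0)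
      (by intro i j; simp only [G.adj_comm]) a b (by simp [hadj]) (by simp) (by simp)
      f (fun i => (if i = a then (1 : ℝ) else 0) - (if i = b then 1 else 0)) hδ (f b)
    obtain ⟨f', hf'⟩ : ∃ f' : ι → ℝ, f' = fun i =>
      f i + f b * ((if i = a then (1 : ℝ) else 0) - (if i = b then 1 else 0)) := ⟨_, rfl⟩
    have hfa : f' a = f a + f b := by rw [hf']; simp [hab]
    have hfb : f' b = 0 := by rw [hf']; simp [hab.symm]
    have hfo : ∀ i, i ≠ a → i ≠ b → f' i = f i := by
      intro i h1 h2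
      rw [hf']
      simp [h1, h2]
    have hnn : ∀ i, 0 ≤ f' i := by
      intro i
      by_cases h1 : i = a
      · rw [h1, hfa]; exact add_nonneg (hf a) (hf b)
      by_cases h2 : i = b
      · rw [h2, hfb]
      · rw [hfo i h1 h2]; exact hf i
    have hsum : ∑ i, f' i = ∑ i, f i := by
      rw [hf']
      simp only []
      rw [Finset.sum_add_distrib, ← Finset.mul_sum]
      have h1 := hδ (fun _ => 1)
      simp only [mul_one, sub_self] at h1
      rw [h1, mul_zero, add_zero]
    have hlt : (univ.filter fun i => f' i ≠ 0).card < m := by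
      rw [← hm]
      apply Finset.card_lt_card
      rw [Finset.ssubset_iff_of_subset]
      · refine ⟨b, by simp [hb], by simp [hfb]⟩
      · intro i hi
        have h3 := (Finset.mem_filter.mp hi).2
        apply Finset.mem_filter.mpr
        refine ⟨Finset.mem_univ _, ?_⟩
        by_cases h1 : i = a
        · rw [h1]; exact ha
        by_cases h2 : i = b
        · rw [h2]; exact hb
        · rw [hfo i h1 h2] at h3; exact h3
    have h5 := ih _ hlt f' hnn rfl
    rw [hsum] at h5
    refine le_trans ?_ h5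
    rw [hf']
    have h6 : ∑ i, ∑ j, (if G.Adj i j then (1 : ℝ) else 0) *
        ((f i + f b * ((if i = a then (1 : ℝ) else 0) - (if i = b then 1 else 0))) *
          (f j + f b * ((if j = a then (1 : ℝ) else 0) - (if j = b then 1 else 0)))) =
        ∑ i, ∑ j, (if G.Adj i j then (1 : ℝ) else 0) * (f i * f j) + 2 * f b *
          (∑ j, (if G.Adj a j then (1 : ℝ) else 0) * f j -
            ∑ j, (if G.Adj b j then (1 : ℝ) else 0) * f j) := hmove
    refine le_of_le_of_eq ?_ h6.symm
    have h7 : 0 ≤ 2 * f b * (∑ j, (if G.Adj a j then (1 : ℝ) else 0) * f j -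
            ∑ j, (if G.Adj b j then (1 : ℝ) else 0) * f j) :=
      mul_nonneg (mul_nonneg (by norm_num) (hf b)) (sub_nonneg.mpr hL)
    linarith

theorem motzkin_straus {ι : Type*} [Fintype ι] [DecidableEq ι] (G : SimpleGraph ι) [DecidableRel G.Adj] (r : ℕ) (hr : 1 ≤ r)
    (hG : G.CliqueFree (r + 1)) (f : ι → ℝ) (hf : ∀ i, 0 ≤ f i) :
    ∑ i, ∑ j, (if G.Adj i j then f i * f j else 0) ≤ (1 - 1 / (r : ℝ)) * (∑ i, f i) ^ 2 := by
  have h := motzkin_straus_ind G r hr hG _ f hf rfl
  simpa only [ite_mul, one_mul, zero_mul] using h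





/-- the planar inequality (V) -/
theorem planar_ineq {ι : Type*} [Fintype ι] [DecidableEq ι] (G : SimpleGraph ι) [DecidableRel G.Adj] (r : ℕ) (hr : 1 ≤ r)
    (hG : G.CliqueFree (r + 1)) (x y : ι → ℝ) (hx : ∀ i, 0 ≤ x i) :
    ∑ i, ∑ j, (if G.Adj i j then (max 0 (x i * x j + y i * y j)) ^ 2 else 0)
      ≤ (1 - 1 / (r : ℝ)) * ∑ i, ∑ j, (x i * x j + y i * y j) ^ 2 := by
  have h := vec_all x y (1 - 1 / (r : ℝ)) (fun i j => if G.Adj i j then 1 else 0)
    (fun i => by simp) (by
      intro f hf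
      have h1 := motzkin_straus G r hr hG f hf
      unfold NN
      have h2 : ∑ i, ∑ j, ((1 - 1 / (r : ℝ)) - (if G.Adj i j then 1 else 0)) * (f i * f j) =
          (1 - 1 / (r : ℝ)) * (∑ i, f i) ^ 2 -
            ∑ i, ∑ j, (if G.Adj i j then f i * f j else 0) := by
        rw [sq, Finset.sum_mul_sum, Finset.mul_sum, ← Finset.sum_sub_distrib]
        refine Finset.sum_congr rfl fun i _ => ?_
        rw [Finset.mul_sum, ← Finset.sum_sub_distrib]
        refine Finset.sum_congr rfl fun j _ => ?_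
        split_ifs <;> ring
      rw [h2]
      linarith) hx
  simpa only [ite_mul, one_mul, zero_mul] using h


end PlanarX

alias motzkin_straus := PlanarX.motzkin_straus

alias planar_ineq := PlanarX.planar_ineq

end Pool.Agent.Helper255.BN
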