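import Mathlib

set_option autoImplicit false

open Finset

namespace Pool.Agent.Helper255.BN

/-- first coordinate of the vector with polar coordinates `(r i, θ i)` in the frame rotated by `t` -/
noncomputable def pp {ι : Type*} (θ r : ι → ℝ) (t : ℝ) (i : ι) : ℝ := r i * Real.cos (θ i - t)

/-- second coordinate of the vector with polar coordinates `(r i, θ i)` in the frame rotated by `t` -/
noncomputable def qq {ι : Type*} (θ r : ι → ℝ) (t : ℝ) (i : ι) : ℝ := r i * Real.sin (θ i - t)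

noncomputable def S1 {ι : Type*} (θ r : ι → ℝ) (A : Finset ι) (t : ℝ) : ℝ := ∑ i ∈ A, pp θ r t i ^ 2

noncomputable def S2 {ι : Type*} (θ r : ι → ℝ) (A : Finset ι) (t : ℝ) : ℝ := ∑ i ∈ A, qq θ r t i ^ 2

noncomputable def S3 {ι : Type*} (θ r : ι → ℝ) (A : Finset ι) (t : ℝ) : ℝ := ∑ i ∈ A, pp θ r t i * qq θ r t i

/-- the rotating kernel -/
noncomputable def Gk {ι : Type*} (θ r : ι → ℝ) (A B : Finset ι) (t : ℝ) (i j : ι) : ℝ :=
  S1 θ r A t / (S1 θ r A t + S1 θ r B t) * (pp θ r t i ^ 2 * pp θ r t j ^ 2)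
  + S2 θ r A t / (S2 θ r A t + S2 θ r B t) * (qq θ r t i ^ 2 * qq θ r t j ^ 2)
  + 2 * (S3 θ r A t / (S3 θ r A t + S3 θ r B t)) * (pp θ r t i * qq θ r t i * (pp θ r t j * qq θ r t j))

/-- squared inner product of acute pairs -/
noncomputable def cp {ι : Type*} (θ r : ι → ℝ) (i j : ι) : ℝ := (max 0 (r i * r j * Real.cos (θ i - θ j))) ^ 2

/-- squared inner product of obtuse pairs -/
noncomputable def cm {ι : Type*} (θ r : ι → ℝ) (i j : ι) : ℝ := (max 0 (-(r i * r j * Real.cos (θ i - θ j)))) ^ 2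

/-- the accumulated kernel at time `t`: `A` = points that have left the window, `B` = points not yet in it,
the other points are in the window -/
noncomputable def Ct {ι : Type*} [Fintype ι] [DecidableEq ι] (θ r : ι → ℝ) (A B : Finset ι) (t : ℝ) (i j : ι) : ℝ :=
  if i ∈ B ∨ j ∈ B then 0 else
    if i ∈ A ∨ j ∈ A then cp θ r i j + (if i = j then ∑ k, cm θ r i k else 0)
    else Gk θ r A B t i j + (if i = j then ∑ k ∈ A, cm θ r i k else 0)

noncomputable def NN {ι : Type*} [Fintype ι] (c : ℝ) (e T : ι → ι → ℝ) : ℝ := ∑ i, ∑ j, (c - e i j) * T i j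

structure Inv {ι : Type*} [Fintype ι] [DecidableEq ι] (θ r : ι → ℝ) (A W B : Finset ι) (t : ℝ) : Prop where
  rpos : ∀ i, 0 < r i
  dAW : Disjoint A W
  dAB : Disjoint A B
  dWB : Disjoint W B
  cover : ∀ i, i ∈ A ∨ i ∈ W ∨ i ∈ B
  hA : ∀ i ∈ A, θ i ≤ t
  hW : ∀ i ∈ W, t ≤ θ i ∧ θ i ≤ t + Real.pi / 2
  hB : ∀ i ∈ B, t + Real.pi / 2 ≤ θ i
  hpi : ∀ i j, θ i - θ j < Real.pi
  horth : ∀ i j, θ i ≠ θ j + Real.pi / 2

/-- the final value -/
noncomputable def FF {ι : Type*} [Fintype ι] (θ r : ι → ℝ) (c : ℝ) (e : ι → ι → ℝ) : ℝ :=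
  c * (∑ i, ∑ j, (r i * r j * Real.cos (θ i - θ j)) ^ 2) - ∑ i, ∑ j, e i j * cp θ r i j

end Pool.Agent.Helper255.BN
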