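import Mathlib
import Pool.Agent.Helper255.BN.Top

/-! The second largest eigenvalue of a non-complete graph is nonnegative, and the
two-eigenvalue inequality in its two usual forms. -/
set_option autoImplicit false
open scoped BigOperators
open Finset

namespace Pool.Agent.Helper255.BN.Final

open Pool.Agent.Helper255.BN Pool.Agent.Helper255.BN.Top

variable {V : Type*} [Fintype V] [DecidableEq V]

theorem second_nonneg (G : SimpleGraph V) [DecidableRel G.Adj] (hG : G ≠ ⊤)
    (hA : (G.adjMatrix ℝ).IsHermitian) (i j : V)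
    (h2 : ∀ k, k ≠ i → hA.eigenvalues k ≤ hA.eigenvalues j) :
    0 ≤ hA.eigenvalues j := by
  classical
  -- two distinct non-adjacent vertices
  have hex : ∃ u v : V, u ≠ v ∧ ¬ G.Adj u v := by
    by_contra hcon
    push Not at hcon
    apply hG
    ext u v
    simp only [SimpleGraph.top_adj]
    exact ⟨fun h => h.ne, fun h => hcon u v h⟩
  obtain ⟨u, v, huv, hadj⟩ := hex
  by_contra hneg
  push Not at hneg
  -- a nonzero vector supported on u, v, orthogonal to the i-th eigenvector
  set p : ℝ := hA.eigenvectorBasis i u with hp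
  set q : ℝ := hA.eigenvectorBasis i v with hq
  have hab : ∃ α β : ℝ, p * α + q * β = 0 ∧ 0 < α ^ 2 + β ^ 2 := by
    by_cases h : p = 0 ∧ q = 0
    · refine ⟨1, 0, ?_, by norm_num⟩
      rw [h.1, h.2]; ring
    · refine ⟨q, -p, by ring, ?_⟩
      rcases not_and_or.1 h with h | h
      · have h5 : 0 < p ^ 2 := by positivity
        nlinarith [sq_nonneg q]
      · have h5 : 0 < q ^ 2 := by positivity
        nlinarith [sq_nonneg p]
  obtain ⟨α, β, h0, hpos⟩ := hab
  set x : V → ℝ := fun w => if w = u then α else if w = v then β else 0 with hx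
  have hxu : x u = α := by simp [hx]
  have hxv : x v = β := by simp [hx, huv.symm]
  have hxw : ∀ w, w ≠ u → w ≠ v → x w = 0 := by
    intro w h1 h2; simp [hx, h1, h2]
  have hsum : ∀ f : V → ℝ, ∑ w, f w * x w = f u * α + f v * β := by
    intro f
    have : ∀ w, f w * x w = (if w = u then f u * α else 0) + (if w = v then f v * β else 0) := by
      intro w
      by_cases h1 : w = u
      · subst h1; simp [huv, hxu]
      · by_cases h3 : w = v
        · subst h3; simp [h1, hxv]
        · simp [h1, h3, hxw w h1 h3]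
    simp_rw [this, Finset.sum_add_distrib]
    simp
  have hco0 : co hA i x = 0 := by
    rw [co, hsum]; linarith
  have hnorm : ∑ w, x w * x w = α ^ 2 + β ^ 2 := by
    rw [hsum, hxu, hxv]; ring
  -- the quadratic form vanishes on x
  have hquad : ∑ w, x w * ∑ z, (G.adjMatrix ℝ) w z * x z = 0 := by
    have h3 : ∀ w, ∑ z, (G.adjMatrix ℝ) w z * x z
        = (G.adjMatrix ℝ) w u * α + (G.adjMatrix ℝ) w v * β := fun w => hsum _
    have h4 : ∑ w, x w * ∑ z, (G.adjMatrix ℝ) w z * x z
        = ∑ w, (∑ z, (G.adjMatrix ℝ) w z * x z) * x w :=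
      Finset.sum_congr rfl fun _ _ => mul_comm _ _
    rw [h4, hsum, h3, h3]
    have hvu : ¬ G.Adj v u := fun h => hadj h.symm
    simp [SimpleGraph.adjMatrix_apply, hadj, hvu]
  have hq1 : ∑ k, hA.eigenvalues k * (co hA k x) ^ 2
      = ∑ w, x w * ∑ z, (G.adjMatrix ℝ) w z * x z := by
    rw [← co_parseval hA x (fun w => ∑ z, (G.adjMatrix ℝ) w z * x z)]
    refine Finset.sum_congr rfl fun k _ => ?_
    rw [co_mulVec]; ring
  have hq2 : ∑ k, (co hA k x) ^ 2 = α ^ 2 + β ^ 2 := by
    rw [← hnorm, ← co_parseval hA x x]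
    exact Finset.sum_congr rfl fun k _ => by ring
  have hle : ∑ k, hA.eigenvalues k * (co hA k x) ^ 2
      ≤ ∑ k, hA.eigenvalues j * (co hA k x) ^ 2 := by
    refine Finset.sum_le_sum fun k _ => ?_
    by_cases hk : k = i
    · subst hk; rw [hco0]; simp
    · exact mul_le_mul_of_nonneg_right (h2 k hk) (sq_nonneg _)
  rw [← Finset.mul_sum, hq2, hq1, hquad] at hle
  nlinarith

theorem main_noncomplete (G : SimpleGraph V) [DecidableRel G.Adj] (hG : G ≠ ⊤) (r : ℕ)
    (hr : 1 ≤ r) (hC : G.CliqueFree (r + 1))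
    (hA : (G.adjMatrix ℝ).IsHermitian) (i j : V) (hij : i ≠ j)
    (h1 : hA.eigenvalues j ≤ hA.eigenvalues i)
    (h2 : ∀ k, k ≠ i → hA.eigenvalues k ≤ hA.eigenvalues j) :
    hA.eigenvalues i ^ 2 + hA.eigenvalues j ^ 2
      ≤ 2 * (1 - 1 / (r : ℝ)) * (G.edgeFinset.card : ℝ) := by
  have hj0 : 0 ≤ hA.eigenvalues j := second_nonneg G hG hA i j h2
  have hr1 : (1:ℝ) ≤ r := by exact_mod_cast hr
  have hc : 0 ≤ 1 - 1 / (r : ℝ) := by
    rw [sub_nonneg, div_le_one (by linarith)]; exact hr1
  rcases eq_or_lt_of_le (hj0.trans h1) with h0 | hpos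
  · have hj : hA.eigenvalues j = 0 := le_antisymm (by linarith) hj0
    rw [← h0, hj]
    have : (0:ℝ) ≤ 2 * (1 - 1 / (r : ℝ)) * (G.edgeFinset.card : ℝ) := by positivity
    simpa using this
  · have ht : ∀ k, hA.eigenvalues k ≤ hA.eigenvalues i := by
      intro k
      by_cases hk : k = i
      · rw [hk]
      · exact (h2 k hk).trans h1
    have hmain := weighted_top G r hr hC hA
      (fun a b => by
        simp only [SimpleGraph.adjMatrix_apply]; split_ifs <;> norm_num)
      (fun a b h => by simp [SimpleGraph.adjMatrix_apply, h])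
      i j ht hij.symm hpos hj0
    rw [sum_sq_adj, Nat.card_eq_fintype_card, ← SimpleGraph.edgeFinset_card] at hmain
    calc _ ≤ _ := hmain
      _ = _ := by ring

end Pool.Agent.Helper255.BN.Final
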